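import Pool.Agent.H424R7.FT.Stm

set_option autoImplicit false

namespace Pool.Agent.H424R7.FT

open Pool.Agent.NPC Pool.Agent.H424R2.PPAD Pool.Agent.H547R6

theorem alg_iff (I : Circ × Circ) (v : List Bool) : isSolC I v = true ↔ EOL.IsSol I v := by
  simp only [isSolC, EOL, zerosL_eq, Bool.and_eq_true, Bool.or_eq_true, decide_eq_true_eq]

theorem alg_pos (I : Circ × Circ) (h : EOL.Valid I) : 0 < eolN I := by
  obtain ⟨-, -, h3⟩ := h
  rcases Nat.eq_zero_or_pos (eolN I) with h0 | h0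
  · exfalso
    apply h3
    have h1 : (I.1.eval (zeros (eolN I))).length = 0 := by
      simpa [Circ.eval, eolN] using h0
    rw [List.length_eq_zero_iff] at h1
    rw [h1, h0]
    rfl
  · exact h0

theorem alg_pairs (C : Circ) (n k : ℕ) (hn : 0 < n) (h : pairs C n ≤ k * n) :
    ∃ j < n, fan C n j ≤ k := by
  by_contra hcon
  push Not at hcon
  have h1 : ∑ _j ∈ Finset.range n, k < pairs C n := by
    unfold pairs
    apply Finset.sum_lt_sum_of_nonempty
    · exact ⟨0, Finset.mem_range.2 hn⟩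
    · intro j hj
      exact hcon j (Finset.mem_range.1 hj)
  rw [Finset.sum_const, Finset.card_range, smul_eq_mul, Nat.mul_comm] at h1
  omega

theorem alg_small (I : Circ × Circ) (k : ℕ) (hn : 0 < eolN I) (h : Small k I) :
    ∃ j < eolN I, fan I.1 (eolN I) j ≤ k ∨ fan I.2 (eolN I) j ≤ k := by
  rcases h with ⟨j, hj, h⟩ | ⟨j, hj, h⟩ | h | h
  · exact ⟨j, hj, Or.inl h⟩
  · exact ⟨j, hj, Or.inr h⟩
  · obtain ⟨j, hj, h⟩ := alg_pairs I.1 (eolN I) k hn h
    exact ⟨j, hj, Or.inl h⟩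
  · obtain ⟨j, hj, h⟩ := alg_pairs I.2 (eolN I) k hn h
    exact ⟨j, hj, Or.inr h⟩

theorem ALG_proof (h1 : S_CAN) : S_ALG := by
  intro I w k hv hs hk
  obtain ⟨j, hj, hfan⟩ := alg_small I k (alg_pos I hv) hs
  have hfan2 : 2 ^ fan I.1 (eolN I) j ≤ w.length ∨ 2 ^ fan I.2 (eolN I) j ≤ w.length := by
    rcases hfan with h | h
    · exact Or.inl (le_trans (Nat.pow_le_pow_right (by norm_num) h) hk)
    · exact Or.inr (le_trans (Nat.pow_le_pow_right (by norm_num) h) hk)
  obtain ⟨v, hvc, hvs⟩ := h1 I w j hv hj hfan2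
  have hmem : v ∈ (candsC (I, w)).filter (isSolC I) := by
    rw [List.mem_filter]
    refine ⟨?_, (alg_iff I v).2 hvs⟩
    unfold candsC
    rw [List.mem_flatMap]
    exact ⟨j, List.mem_range.2 hj, hvc⟩
  have hne : (candsC (I, w)).filter (isSolC I) ≠ [] := List.ne_nil_of_mem hmem
  unfold solveF
  obtain ⟨a, l, hal⟩ := List.exists_cons_of_ne_nil hne
  have ha : a ∈ (candsC (I, w)).filter (isSolC I) := by
    rw [hal]
    exact List.mem_cons_self
  show EOL.IsSol I (((candsC (I, w)).filter (isSolC I)).headD [])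
  rw [hal]
  exact (alg_iff I a).1 (List.mem_filter.1 ha).2

end Pool.Agent.H424R7.FT
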