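import Pool.Agent.H424R7.FT.Stm

/-!
# End-of-Line with few influences: transfer of solvability
-/

set_option autoImplicit false

namespace Pool.Agent.H424R7.FT

open Pool.Agent.NPC Pool.Agent.H424R2.PPAD Pool.Agent.H547R6

/-- solvers are transferred by reductions -/
theorem Solvable.of_reduces {A B : SearchProblem} (h : A.Reduces B) (hB : Solvable B) :
    Solvable A := by
  let _ := A.encInst
  let _ := A.encSol
  let _ := B.encInst
  let _ := B.encSol
  obtain ⟨f, g, hf, hg, h⟩ := h
  obtain ⟨s, hs, hB⟩ := hB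
  refine ⟨fun x => g (x, s (f x)), PTime.of_poly (Pool.Agent.NPC.Poly.comp hg.toPoly
    (Pool.Agent.NPC.Poly.pair Pool.Agent.NPC.Poly.id
      (Pool.Agent.NPC.Poly.comp hs.toPoly hf.toPoly))), fun x hx => ?_⟩
  exact (h x hx).2 _ (hB _ (h x hx).1)

/-- the restricted problem reduces to the general one -/
theorem reduces_EOL (Q : Circ × Circ → Prop) : (EOLr Q).Reduces EOL := by
  have h1 : PTime (fun I : Circ × Circ => I) := PTime.of_poly Pool.Agent.NPC.Poly.id
  have h2 : PTime (fun p : (Circ × Circ) × List Bool => p.2) :=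
    PTime.of_poly (Pool.Agent.NPC.Poly.snd Pool.Agent.NPC.Poly.id)
  exact ⟨_, _, h1, h2, fun x hx => ⟨hx.1, fun y hy => hy⟩⟩

end Pool.Agent.H424R7.FT
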