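import Pool.Agent.H424R7.FT.Stm

set_option autoImplicit false

namespace Pool.Agent.H424R7.FT

open Pool.Agent.NPC Pool.Agent.H424R2.PPAD Pool.Agent.H547R6

/-- a finite set with a fixed point free involution has even cardinality -/
private lemma can_even {X : Type} [DecidableEq X] (C : Finset X) (σ : X → X)
    (h1 : ∀ x ∈ C, σ x ∈ C) (h2 : ∀ x ∈ C, σ x ≠ x) (h3 : ∀ x ∈ C, σ (σ x) = x) :
    Even C.card := by
  have h : ∑ x ∈ C, (1 : ZMod 2) = 0 :=
    Finset.sum_involution (fun x _ => σ x) (fun x _ => by decide) (fun x hx _ => h2 x hx)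
      (fun x hx => h1 x hx) (fun x hx => h3 x hx)
  rw [Finset.sum_const, nsmul_eq_mul, mul_one] at h
  exact (ZMod.natCast_eq_zero_iff_even).1 h

private lemma can_flip_self {n : ℕ} (x : Fin n → Bool) (j : Fin n) : flipF x j j = !x j := by
  unfold flipF
  rw [Function.update_self]

private lemma can_flip_ne {n : ℕ} (x : Fin n → Bool) {i j : Fin n} (h : i ≠ j) :
    flipF x j i = x i := by
  unfold flipF
  rw [Function.update_of_ne h]

private lemma can_flip_flip {n : ℕ} (x : Fin n → Bool) (j : Fin n) : flipF (flipF x j) j = x := by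
  funext i
  by_cases h : i = j
  · subst h
    rw [can_flip_self, can_flip_self, Bool.not_not]
  · rw [can_flip_ne _ h, can_flip_ne _ h]

private lemma can_flip_neq {n : ℕ} (x : Fin n → Bool) (j : Fin n) : flipF x j ≠ x := by
  intro h
  have h1 := congrFun h j
  rw [can_flip_self] at h1
  cases hx : x j <;> rw [hx] at h1 <;> simp at h1

/-- the function of a circuit -/
private def canF (n : ℕ) (C : Circ) (x : Fin n → Bool) : Fin n → Bool :=
  fun i => (C.eval (List.ofFn x)).getD i false

private lemma can_ofFn {n : ℕ} {C : Circ} (hC : C.2.length = n) (x : Fin n → Bool) :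
    List.ofFn (canF n C x) = C.eval (List.ofFn x) := by
  have hl : (C.eval (List.ofFn x)).length = n := by
    unfold Circ.eval
    rw [List.length_map, hC]
  apply List.ext_getElem
  · rw [List.length_ofFn, hl]
  · intro i h1 h2
    rw [List.getElem_ofFn]
    unfold canF
    rw [List.getD_eq_getElem _ _ h2]

private lemma can_xor {n : ℕ} (x : Fin n → Bool) (j : Fin n) :
    xorL n (List.ofFn x) (unitL n j) = List.ofFn (flipF x j) := by
  apply List.ext_getElem
  · simp [xorL]
  · intro i h1 h2
    have hi : i < n := by simpa using h2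
    rw [List.getElem_ofFn]
    have h3 : (xorL n (List.ofFn x) (unitL n j))[i] = xor (x ⟨i, hi⟩) (decide (i = j.1)) := by
      simp [xorL, unitL, hi]
    rw [h3]
    by_cases h : i = j.1
    · have h4 : (⟨i, hi⟩ : Fin n) = j := Fin.ext h
      rw [h4, can_flip_self]
      simp [h]
    · have h4 : (⟨i, hi⟩ : Fin n) ≠ j := fun h5 => h (congrArg Fin.val h5)
      rw [can_flip_ne _ h4]
      simp [h]

private lemma can_zero (n : ℕ) : zeros n = List.ofFn (zeroF n) := by
  apply List.ext_getElem <;> simp [zeros, zeroF]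

private lemma can_sol {I : Circ × Circ} (h1 : I.1.2.length = eolN I) (h2 : I.2.2.length = eolN I)
    {v : Fin (eolN I) → Bool}
    (hv : Sol (zeroF (eolN I)) (canF (eolN I) I.1) (canF (eolN I) I.2) v) :
    EOL.IsSol I (List.ofFn v) := by
  refine ⟨List.length_ofFn, ?_⟩
  rcases hv with h | ⟨h, h'⟩
  · left
    intro h3
    apply h
    apply List.ofFn_injective
    rw [can_ofFn h2, can_ofFn h1, h3]
  · right
    refine ⟨?_, ?_⟩
    · intro h3
      apply h
      apply List.ofFn_injective
      rw [h3, can_zero]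
    · intro h3
      apply h'
      apply List.ofFn_injective
      rw [can_ofFn h1, can_ofFn h2, h3]

/-- membership in the span -/
private lemma can_span (h4 : S_SPN) {n L : ℕ} {C : Circ} (hC : C.2.length = n) (j : Fin n)
    (hL : 2 ^ fan C n j ≤ L) {v : Fin n → Bool}
    (hv : ∀ i : Fin n, v i = true → (conn C n j).getD i false = true ∨ i = j) :
    List.ofFn v ∈ spJ C n L j := by
  refine h4 n L j (conn C n j) (List.ofFn v) j.2 ?_ List.length_ofFn hL ?_
  · unfold conn
    rw [List.length_map, hC]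
  · intro i hi
    by_cases hin : i < n
    · have h5 : (List.ofFn v).getD i false = v ⟨i, hin⟩ := by
        rw [List.getD_eq_getElem _ _ (by simpa using hin), List.getElem_ofFn]
      rw [h5] at hi
      rcases hv ⟨i, hin⟩ hi with h | h
      · exact Or.inl h
      · exact Or.inr (congrArg Fin.val h)
    · rw [List.getD_eq_default _ _ (by simpa using hin)] at hi
      simp at hi

theorem CAN_proof (h1 : S_GA) (h2 : S_GB) (h3 : S_OSEM) (h4 : S_SPN) : S_CAN := by
  classical
  intro I w j hI hj hfan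
  obtain ⟨hl2, hP0, hS0⟩ := hI
  have hl1 : I.1.2.length = eolN I := rfl
  -- the data
  have key : ∀ C : Circ, C.2.length = eolN I →
      ∃ U : Finset (Fin (eolN I) → Bool),
        (∀ y, y ∈ U ↔ ∀ i : Fin (eolN I), y i = true →
          (conn C (eolN I) j).getD i false = true ∨ i = ⟨j, hj⟩) ∧
        zeroF (eolN I) ∈ U ∧ Even U.card ∧ (∀ y ∈ U, flipF y ⟨j, hj⟩ ∈ U) ∧
        (∀ x, canF (eolN I) C x ∈ U → canF (eolN I) C (flipF x ⟨j, hj⟩) ∈ U) := by
    intro C hC
    set U : Finset (Fin (eolN I) → Bool) := Finset.univ.filter fun y =>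
      ∀ i : Fin (eolN I), y i = true →
          (conn C (eolN I) j).getD i false = true ∨ i = ⟨j, hj⟩ with hU
    have hmem : ∀ y, y ∈ U ↔ ∀ i : Fin (eolN I), y i = true →
        (conn C (eolN I) j).getD i false = true ∨ i = ⟨j, hj⟩ := fun y => by simp [hU]
    have hflip : ∀ y ∈ U, flipF y ⟨j, hj⟩ ∈ U := by
      intro y hy
      rw [hmem] at hy ⊢
      intro i hi
      by_cases h : i = ⟨j, hj⟩
      · exact Or.inr h
      · rw [can_flip_ne _ h] at hi
        exact hy i hi
    refine ⟨U, hmem, ?_, ?_, hflip, ?_⟩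
    · exact (hmem _).2 fun i hi => by simp [zeroF] at hi
    · exact can_even U (fun y => flipF y ⟨j, hj⟩) hflip (fun y _ => can_flip_neq y _)
        (fun y _ => can_flip_flip y _)
    · intro x hx
      rw [hmem] at hx ⊢
      intro i hi
      by_cases hc : (conn C (eolN I) j).getD i false = true
      · exact Or.inl hc
      · have h5 := h3 C (eolN I) j i (List.ofFn x) List.length_ofFn (by simpa using hc)
        have h6 : xorL (eolN I) (List.ofFn x) (unitL (eolN I) j) = List.ofFn (flipF x ⟨j, hj⟩) :=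
          can_xor x ⟨j, hj⟩
        rw [h6] at h5
        apply hx i
        unfold canF at hi ⊢
        rw [h5]
        exact hi
  have hP0' : canF (eolN I) I.2 (zeroF (eolN I)) = zeroF (eolN I) := by
    apply List.ofFn_injective
    rw [can_ofFn hl2, ← can_zero, hP0]
  have hS0' : canF (eolN I) I.1 (zeroF (eolN I)) ≠ zeroF (eolN I) := by
    intro h
    apply hS0
    rw [can_zero, ← can_ofFn hl1, h]
  rcases hfan with hfan | hfan
  · obtain ⟨U, hU, hU0, hUe, hUf, hUS⟩ := key I.1 hl1
    obtain ⟨v, hv, hv'⟩ := h1 (Fin (eolN I) → Bool) (zeroF (eolN I)) (canF (eolN I) I.1)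
      (canF (eolN I) I.2) (fun x => flipF x ⟨j, hj⟩) U hP0' hS0'
      (fun x => can_flip_flip x _) (fun x => can_flip_neq x _) hU0 hUe hUS
    refine ⟨List.ofFn v, ?_, can_sol hl1 hl2 hv⟩
    unfold candJ
    rw [List.mem_append, List.mem_append]
    left
    rcases hv' with h | ⟨y, hy, h⟩
    · left
      exact can_span h4 hl1 ⟨j, hj⟩ hfan ((hU v).1 h)
    · right
      rw [List.mem_map]
      refine ⟨List.ofFn y, can_span h4 hl1 ⟨j, hj⟩ hfan ((hU y).1 hy), ?_⟩
      rw [h, ← can_ofFn hl2]
      exact can_xor _ ⟨j, hj⟩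
  · obtain ⟨U, hU, hU0, hUe, hUf, hUS⟩ := key I.2 hl2
    obtain ⟨v, hv, hv'⟩ := h2 (Fin (eolN I) → Bool) (zeroF (eolN I)) (canF (eolN I) I.1)
      (canF (eolN I) I.2) (fun x => flipF x ⟨j, hj⟩) U hP0' hS0'
      (fun x => can_flip_flip x _) (fun x => can_flip_neq x _) hU0 hUe hUS
    refine ⟨List.ofFn v, ?_, can_sol hl1 hl2 hv⟩
    unfold candJ
    rw [List.mem_append]
    right
    rw [List.mem_append]
    rcases hv' with h | h | ⟨y, hy, h⟩
    · left
      exact can_span h4 hl2 ⟨j, hj⟩ hfan ((hU v).1 h)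
    · left
      exact can_span h4 hl2 ⟨j, hj⟩ hfan ((hU v).1 (by rw [h]; exact hUf _ hU0))
    · right
      rw [List.mem_map]
      refine ⟨List.ofFn y, can_span h4 hl2 ⟨j, hj⟩ hfan ((hU y).1 hy), ?_⟩
      rw [h, ← can_ofFn hl1]
      exact can_xor _ ⟨j, hj⟩

end Pool.Agent.H424R7.FT
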