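import Pool.Agent.H547R6.Bs7

/-!
# End-of-Line with few influences: definitions
-/

set_option autoImplicit false

namespace Pool.Agent.H424R7.FT

open Pool.Agent.NPC Pool.Agent.H424R2.PPAD Pool.Agent.H547R6

/-- The solutions of End-of-Line, for functions `S`, `P` on a set with the special element `o`. -/
def Sol {X : Type} (o : X) (S P : X → X) (v : X) : Prop :=
  P (S v) ≠ v ∨ (v ≠ o ∧ S (P v) ≠ v)

/-- The all-zero vector. -/
def zeroF (n : ℕ) : Fin n → Bool := fun _ => false

/-- The unit vector. -/
def unitF {n : ℕ} (j : Fin n) : Fin n → Bool := fun i => decide (i = j)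

/-- Change the coordinate `j`. -/
def flipF {n : ℕ} (x : Fin n → Bool) (j : Fin n) : Fin n → Bool := Function.update x j (!x j)

/-- The flags of all wires of a circuit with the gates `gs`, for the flags `x` of the inputs: a gate
is flagged if it reads a flagged wire. -/
def owires (gs : List (ℕ × ℕ)) (x : List Bool) : List Bool :=
  gs.foldl (fun w g => w ++ [w.getD g.1 false || w.getD g.2 false]) x

/-- For each output of the circuit `C` with `n` inputs: is it connected with the input `j`? -/
def conn (C : Circ) (n j : ℕ) : List Bool :=
  C.2.map fun i => (owires C.1 (unitL n j)).getD i false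

/-- The number of outputs of `C` connected with the input `j`. -/
def fan (C : Circ) (n j : ℕ) : ℕ := (conn C n j).count true

/-- The number of inputs connected with the output `i` of `C`. -/
def inn (C : Circ) (n i : ℕ) : ℕ := ((List.range n).map fun j => (conn C n j).getD i false).count true

/-- The number of connected pairs of an input and an output of `C`. -/
def pairs (C : Circ) (n : ℕ) : ℕ := ∑ j ∈ Finset.range n, fan C n j

/-! ### The restricted problems -/

/-- End-of-Line restricted to the instances with the property `Q`. -/
def EOLr (Q : Circ × Circ → Prop) : SearchProblem where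
  Inst := Circ × Circ
  Sol := List Bool
  encInst := inferInstance
  encSol := inferInstance
  Valid I := EOL.Valid I ∧ Q I
  IsSol I v := EOL.IsSol I v

/-- A search problem is solvable in polynomial time: some Turing machine outputs in polynomial time
a solution for each valid input. -/
def Solvable (A : SearchProblem) : Prop :=
  let _ := A.encInst
  let _ := A.encSol
  ∃ f : A.Inst → A.Sol, PTime f ∧ ∀ I, A.Valid I → A.IsSol I (f I)

/-- One of the two circuits has an input bit which is connected with at most `k` outputs, or has
at most `k n` connected pairs of an input and an output. -/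
def Small (k : ℕ) (I : Circ × Circ) : Prop :=
  (∃ j < eolN I, fan I.1 (eolN I) j ≤ k) ∨ (∃ j < eolN I, fan I.2 (eolN I) j ≤ k) ∨
    pairs I.1 (eolN I) ≤ k * eolN I ∨ pairs I.2 (eolN I) ≤ k * eolN I

/-- `Small k` for some `k ≤ c * log₂ (n + 1)`. -/
def Sparse (c : ℕ) (I : Circ × Circ) : Prop := ∃ k, 2 ^ k ≤ (eolN I + 1) ^ c ∧ Small k I

/-- In both circuits, each input bit is connected with at most `n ^ (1 / r)` outputs. -/
def Thin (r : ℕ) (I : Circ × Circ) : Prop :=
  ∀ j < eolN I, (fan I.1 (eolN I) j) ^ r ≤ eolN I ∧ (fan I.2 (eolN I) j) ^ r ≤ eolN I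

/-! ### The algorithm -/

/-- The unit strings of the flagged positions. -/
def basis (n : ℕ) (c : List Bool) : List (List Bool) :=
  ((List.range n).filter fun i => c.getD i false).map (unitL n)

/-- The sums modulo two of the sublists of `B`, at most `L` of them. -/
def spanT (n : ℕ) (B : List (List Bool)) (L : ℕ) : List (List Bool) :=
  B.foldl (fun T b => (T ++ T.map (xorL n b)).take L) [zerosL n]

/-- The span for the circuit `C` and its input `j`. -/
def spJ (C : Circ) (n L j : ℕ) : List (List Bool) :=
  spanT n (unitL n j :: basis n (conn C n j)) (2 * L)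

/-- The candidates for the input `j`. -/
def candJ (I : Circ × Circ) (w : List Bool) (j : ℕ) : List (List Bool) :=
  (spJ I.1 (eolN I) w.length j ++
    (spJ I.1 (eolN I) w.length j).map fun y => xorL (eolN I) (I.2.eval y) (unitL (eolN I) j)) ++
  (spJ I.2 (eolN I) w.length j ++
    (spJ I.2 (eolN I) w.length j).map fun x => xorL (eolN I) (I.1.eval x) (unitL (eolN I) j))

/-- Test whether `v` is a solution. -/
def isSolC (I : Circ × Circ) (v : List Bool) : Bool :=
  decide (v.length = eolN I) && (decide (I.2.eval (I.1.eval v) ≠ v) ||
    (decide (v ≠ zerosL (eolN I)) && decide (I.1.eval (I.2.eval v) ≠ v)))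

/-- The candidates. -/
def candsC (p : (Circ × Circ) × List Bool) : List (List Bool) :=
  (List.range (eolN p.1)).flatMap fun j => candJ p.1 p.2 j

/-- The algorithm: the first candidate which is a solution. -/
def solveF (p : (Circ × Circ) × List Bool) : List Bool :=
  ((candsC p).filter (isSolC p.1)).headD []

/-! ### The padded instance -/

/-- New number of the wire `t`, read by the gate `j` of the circuit `C` with `m` inputs. -/
def ren (z big m j t : ℕ) : ℕ := if t < m then t else if t < m + j then z + 1 + (t - m) else big

/-- The circuit for `(x, d) ↦ (C x, d)` if `d = 0` and `(x, d) ↦ (x, d)` otherwise, where `x` has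
`m` bits and `d` has `D` bits. -/
def padD (D m : ℕ) (C : Circ) : Circ :=
  let n := m + D
  let z := n + 3 * D
  let G := C.1.length
  let q := z + 1 + G
  let big := q + 1 + 3 * m
  (((big, big) :: (List.range (3 * D)).map (fun i =>
      if i % 3 = 0 then (m + i / 3, m + i / 3)
      else if i % 3 = 1 then (n + 3 * (i / 3), n + 3 * (i / 3) + 1)
      else (n + 3 * (i / 3) + 2, n + 3 * (i / 3) + 2))) ++
    ((List.range G).map (fun j =>
      (ren z big m j (C.1.getD j (0, 0)).1, ren z big m j (C.1.getD j (0, 0)).2)) ++
    ((z, z) :: (List.range (3 * m)).map (fun i =>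
      if i % 3 = 0 then (z, ren z big m G (C.2.getD (i / 3) 0))
      else if i % 3 = 1 then (q, i / 3)
      else (q + 3 * (i / 3) + 1, q + 3 * (i / 3) + 2)))),
    (List.range m).map (fun i => q + 3 * i + 3) ++ (List.range D).map (fun l => m + l))

/-- The padded instance. -/
def padI (r : ℕ) (I : Circ × Circ) : Circ × Circ :=
  (padD ((eolN I + 1) ^ r) (eolN I) I.1, padD ((eolN I + 1) ^ r) (eolN I) I.2)

end Pool.Agent.H424R7.FT
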