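import Pool.Agent.H424R7.FT.Stm

set_option autoImplicit false

namespace Pool.Agent.H424R7.FT

open Pool.Agent.NPC Pool.Agent.H424R2.PPAD Pool.Agent.H547R6

theorem ga_even {X : Type} [DecidableEq X] (τ : X → X) (W : Finset X) (h1 : ∀ x, τ (τ x) = x)
    (h2 : ∀ x, τ x ≠ x) (h3 : ∀ x ∈ W, τ x ∈ W) : Even W.card := by
  have h : ∑ _x ∈ W, (1 : ZMod 2) = 0 :=
    Finset.sum_involution (fun x _ => τ x) (fun _ _ => by decide) (fun x _ _ => h2 x)
      (fun x hx => h3 x hx) (fun x _ => h1 x)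
  rw [Finset.sum_const, nsmul_eq_mul, mul_one] at h
  exact (ZMod.natCast_eq_zero_iff_even).1 h

theorem GA_proof : S_GA := by
  intro X _ _ o S P τ C hPo hSo h1 h2 hoC hC hcl
  by_contra hcon
  push Not at hcon
  have hns : ∀ v, (v ∈ C ∨ ∃ y ∈ C, v = τ (P y)) → P (S v) = v ∧ (v ≠ o → S (P v) = v) := by
    intro v hv
    have h : ¬ Sol o S P v := fun hs => by
      have := hcon v hs
      rcases hv with hv | ⟨y, hy, hv⟩
      · exact this.1 hv
      · exact this.2 y hy hv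
    unfold Sol at h
    push Not at h
    exact h
  have hSP : ∀ y ∈ C.erase o, S (P y) = y := fun y hy =>
    (hns y (Or.inl (Finset.mem_of_mem_erase hy))).2 (Finset.ne_of_mem_erase hy)
  set W := (C.erase o).image P with hW
  have hcard : W.card = C.card - 1 := by
    rw [hW, Finset.card_image_of_injOn, Finset.card_erase_of_mem hoC]
    intro x hx y hy hxy
    rw [← hSP x hx, ← hSP y hy, hxy]
  have hCpos : 0 < C.card := Finset.card_pos.2 ⟨o, hoC⟩
  have hodd : ¬ Even W.card := by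
    rw [hcard]
    intro he
    obtain ⟨a, ha⟩ := hC
    obtain ⟨b, hb⟩ := he
    omega
  have hex : ∃ x ∈ W, τ x ∉ W := by
    by_contra hc
    push Not at hc
    exact hodd (ga_even τ W h1 h2 hc)
  obtain ⟨x, hx, hτx⟩ := hex
  obtain ⟨y, hy, rfl⟩ := Finset.mem_image.1 hx
  have hyC : y ∈ C := Finset.mem_of_mem_erase hy
  have hSx : S (P y) ∈ C := by rw [hSP y hy]; exact hyC
  have hSv := hcl (P y) hSx
  have hv := hns (τ (P y)) (Or.inr ⟨y, hyC, rfl⟩)
  by_cases hSo' : S (τ (P y)) = o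
  · have : τ (P y) = o := by rw [← hv.1, hSo', hPo]
    rw [this] at hSo'
    exact hSo hSo'
  · apply hτx
    rw [← hv.1]
    exact Finset.mem_image.2 ⟨_, Finset.mem_erase.2 ⟨hSo', hSv⟩, by rw [hv.1]⟩

end Pool.Agent.H424R7.FT
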