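import Pool.Agent.H424R7.FT.Stm

set_option autoImplicit false

namespace Pool.Agent.H424R7.FT

open Pool.Agent.NPC Pool.Agent.H424R2.PPAD Pool.Agent.H547R6

theorem gb_even {X : Type} [DecidableEq X] (τ : X → X) (W : Finset X) (h1 : ∀ x, τ (τ x) = x)
    (h2 : ∀ x, τ x ≠ x) (h3 : ∀ x ∈ W, τ x ∈ W) : Even W.card := by
  have h : ∑ _x ∈ W, (1 : ZMod 2) = 0 :=
    Finset.sum_involution (fun x _ => τ x) (fun _ _ => by decide) (fun x _ _ => h2 x)
      (fun x hx => h3 x hx) (fun x _ => h1 x)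
  rw [Finset.sum_const, nsmul_eq_mul, mul_one] at h
  exact (ZMod.natCast_eq_zero_iff_even).1 h

theorem GB_proof : S_GB := by
  intro X _ _ o S P τ C hPo hSo h1 h2 hoC hC hcl
  by_contra hcon
  push Not at hcon
  have hns : ∀ v, (v ∈ C ∨ v = τ o ∨ ∃ x ∈ C, v = τ (S x)) →
      P (S v) = v ∧ (v ≠ o → S (P v) = v) := by
    intro v hv
    have h : ¬ Sol o S P v := fun hs => by
      have := hcon v hs
      rcases hv with hv | hv | ⟨y, hy, hv⟩
      · exact this.1 hv
      · exact this.2.1 hv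
      · exact this.2.2 y hy hv
    unfold Sol at h
    push Not at h
    exact h
  have hPS : ∀ x ∈ C, P (S x) = x := fun x hx => (hns x (Or.inl hx)).1
  set W := C.image S with hW
  have hcard : W.card = C.card := by
    rw [hW, Finset.card_image_of_injOn]
    intro x hx y hy hxy
    rw [← hPS x hx, ← hPS y hy, hxy]
  have hoW : o ∉ W := by
    intro h
    obtain ⟨x, hx, hxo⟩ := Finset.mem_image.1 h
    have : x = o := by rw [← hPS x hx, hxo, hPo]
    rw [this] at hxo
    exact hSo hxo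
  have hodd : ¬ Even (insert o W).card := by
    rw [Finset.card_insert_of_notMem hoW, hcard]
    intro he
    obtain ⟨a, ha⟩ := hC
    obtain ⟨b, hb⟩ := he
    omega
  have hex : ∃ y ∈ insert o W, τ y ∉ insert o W := by
    by_contra hc
    push Not at hc
    exact hodd (gb_even τ _ h1 h2 hc)
  obtain ⟨y, hy, hτy⟩ := hex
  have hPy : P y ∈ C := by
    rcases Finset.mem_insert.1 hy with rfl | hy
    · rw [hPo]; exact hoC
    · obtain ⟨x, hx, rfl⟩ := Finset.mem_image.1 hy
      rw [hPS x hx]; exact hx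
  have hPz := hcl y hPy
  have hz : τ y ∈ C ∨ τ y = τ o ∨ ∃ x ∈ C, τ y = τ (S x) := by
    rcases Finset.mem_insert.1 hy with rfl | hy
    · exact Or.inr (Or.inl rfl)
    · obtain ⟨x, hx, rfl⟩ := Finset.mem_image.1 hy
      exact Or.inr (Or.inr ⟨x, hx, rfl⟩)
  have hzo : τ y ≠ o := fun h => hτy (by rw [h]; exact Finset.mem_insert_self _ _)
  have h5 := (hns (τ y) hz).2 hzo
  apply hτy
  rw [← h5]
  exact Finset.mem_insert_of_mem (Finset.mem_image.2 ⟨_, hPz, rfl⟩)

end Pool.Agent.H424R7.FT
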