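import Pool.Agent.H424R7.FT.Stm

/-!
# End-of-Line with few influences: locality bounds the number of connected pairs (task IND)
-/

set_option autoImplicit false

namespace Pool.Agent.H424R7.FT

open Pool.Agent.NPC Pool.Agent.H424R2.PPAD Pool.Agent.H547R6

theorem ind_count (l : List Bool) :
    l.count true = ∑ i ∈ Finset.range l.length, if l.getD i false = true then 1 else 0 := by
  induction l with
  | nil => simp
  | cons a l ih =>
    rw [List.length_cons, Finset.sum_range_succ']
    simp only [List.getD_cons_succ, List.getD_cons_zero, List.count_cons, ih]
    cases a <;> simp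

theorem ind_count_map (n : ℕ) (f : ℕ → Bool) :
    ((List.range n).map f).count true = ∑ j ∈ Finset.range n, if f j = true then 1 else 0 := by
  rw [ind_count]
  simp only [List.length_map, List.length_range]
  refine Finset.sum_congr rfl fun j hj => ?_
  have hj' : j < n := Finset.mem_range.mp hj
  rw [List.getD_eq_getElem _ _ (by simpa using hj')]
  simp

theorem IND_proof : S_IND := by
  intro C n k h
  have hlen : ∀ j, (conn C n j).length = C.2.length := by
    intro j
    simp [conn]
  calc pairs C n = ∑ j ∈ Finset.range n, ∑ i ∈ Finset.range C.2.length,
        (if (conn C n j).getD i false = true then 1 else 0) := by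
        unfold pairs fan
        refine Finset.sum_congr rfl fun j _ => ?_
        rw [ind_count, hlen]
    _ = ∑ i ∈ Finset.range C.2.length, ∑ j ∈ Finset.range n,
        (if (conn C n j).getD i false = true then 1 else 0) := Finset.sum_comm
    _ = ∑ i ∈ Finset.range C.2.length, inn C n i := by
        refine Finset.sum_congr rfl fun i _ => ?_
        unfold inn
        rw [ind_count_map]
    _ ≤ ∑ i ∈ Finset.range C.2.length, k :=
        Finset.sum_le_sum fun i hi => h i (Finset.mem_range.mp hi)
    _ = k * C.2.length := by
        rw [Finset.sum_const, Finset.card_range, smul_eq_mul, mul_comm]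

end Pool.Agent.H424R7.FT
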