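import Pool.Agent.H424R7.FT.Stm

set_option autoImplicit false

namespace Pool.Agent.H424R7.FT

/-- a finite set with a fixed point free involution has even cardinality -/
private lemma loc_even {X : Type} [DecidableEq X] (C : Finset X) (σ : X → X)
    (h1 : ∀ x ∈ C, σ x ∈ C) (h2 : ∀ x ∈ C, σ x ≠ x) (h3 : ∀ x ∈ C, σ (σ x) = x) :
    Even C.card := by
  have h : ∑ x ∈ C, (1 : ZMod 2) = 0 :=
    Finset.sum_involution (fun x _ => σ x) (fun x _ => by decide) (fun x hx _ => h2 x hx)
      (fun x hx => h1 x hx) (fun x hx => h3 x hx)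
  rw [Finset.sum_const, nsmul_eq_mul, mul_one] at h
  exact (ZMod.natCast_eq_zero_iff_even).1 h

private lemma loc_flip_self {n : ℕ} (x : Fin n → Bool) (j : Fin n) : flipF x j j = !x j := by
  unfold flipF
  rw [Function.update_self]

private lemma loc_flip_ne {n : ℕ} (x : Fin n → Bool) {i j : Fin n} (h : i ≠ j) :
    flipF x j i = x i := by
  unfold flipF
  rw [Function.update_of_ne h]

private lemma loc_flip_flip {n : ℕ} (x : Fin n → Bool) (j : Fin n) : flipF (flipF x j) j = x := by
  funext i
  by_cases h : i = j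
  · subst h
    rw [loc_flip_self, loc_flip_self, Bool.not_not]
  · rw [loc_flip_ne _ h, loc_flip_ne _ h]

private lemma loc_flip_neq {n : ℕ} (x : Fin n → Bool) (j : Fin n) : flipF x j ≠ x := by
  intro h
  have h1 := congrFun h j
  rw [loc_flip_self] at h1
  cases hx : x j <;> rw [hx] at h1 <;> simp at h1

/-- an input which few outputs depend on -/
private lemma loc_pick {n k : ℕ} (hn : 0 < n) (A : Fin n → Finset (Fin n))
    (hA : ∑ i, (A i).card ≤ k * n) :
    ∃ j : Fin n, (Finset.univ.filter fun i => j ∈ A i).card ≤ k := by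
  have h1 : ∑ j : Fin n, (Finset.univ.filter fun i => j ∈ A i).card = ∑ i, (A i).card := by
    simp only [Finset.card_filter]
    rw [Finset.sum_comm]
    refine Finset.sum_congr rfl fun i _ => ?_
    rw [← Finset.card_filter]
    congr 1
    ext j
    simp
  have : Nonempty (Fin n) := ⟨⟨0, hn⟩⟩
  have h2 : ∑ j : Fin n, (Finset.univ.filter fun i => j ∈ A i).card ≤ ∑ _j : Fin n, k := by
    rw [h1, Finset.sum_const, Finset.card_univ, Fintype.card_fin, smul_eq_mul, mul_comm]
    exact hA
  obtain ⟨j, -, hj⟩ := Finset.exists_le_of_sum_le Finset.univ_nonempty h2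
  exact ⟨j, hj⟩

theorem LOC_proof (h1 : S_GA) (h2 : S_GB) : S_LOC := by
  classical
  intro n k S P hP hS A hA
  have hn : 0 < n := by
    rcases Nat.eq_zero_or_pos n with h | h
    · subst h
      exact absurd (Subsingleton.elim _ _) hS
    · exact h
  obtain ⟨j, hj⟩ := loc_pick hn A hA
  set U : Finset (Fin n) := insert j (Finset.univ.filter fun i => j ∈ A i) with hU
  have hUc : U.card ≤ k + 1 := (Finset.card_insert_le _ _).trans (by omega)
  have hjU : j ∈ U := Finset.mem_insert_self _ _
  have hnU : ∀ i, i ∉ U → j ∉ A i := by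
    intro i hi hji
    exact hi (Finset.mem_insert_of_mem (Finset.mem_filter.2 ⟨Finset.mem_univ _, hji⟩))
  set C : Finset (Fin n → Bool) := Finset.univ.filter fun y => ∀ i, y i = true → i ∈ U with hC
  have hmem : ∀ y, y ∈ C ↔ ∀ i, y i = true → i ∈ U := fun y => by simp [hC]
  have hflip : ∀ y ∈ C, flipF y j ∈ C := by
    intro y hy
    rw [hmem] at hy ⊢
    intro i hi
    by_cases h : i = j
    · rw [h]; exact hjU
    · rw [loc_flip_ne _ h] at hi
      exact hy i hi
  have h0 : zeroF n ∈ C := (hmem _).2 fun i hi => by simp [zeroF] at hi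
  have heven : Even C.card := loc_even C (fun y => flipF y j) hflip
    (fun y _ => loc_flip_neq y j) (fun y _ => loc_flip_flip y j)
  have hclos : ∀ T : (Fin n → Bool) → (Fin n → Bool),
      (∀ i x y, (∀ j ∈ A i, x j = y j) → T x i = T y i) → ∀ x, T x ∈ C → T (flipF x j) ∈ C := by
    intro T hT x hx
    rw [hmem] at hx ⊢
    intro i hi
    by_contra hiU
    have h3 : T (flipF x j) i = T x i := hT i _ _ fun l hl => by
      apply loc_flip_ne
      rintro rfl
      exact hnU i hiU hl
    rw [h3] at hi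
    exact hiU (hx i hi)
  constructor
  · intro hT
    obtain ⟨v, hv, hv'⟩ := h1 (Fin n → Bool) (zeroF n) S P (fun x => flipF x j) C hP hS
      (fun x => loc_flip_flip x j) (fun x => loc_flip_neq x j) h0 heven (hclos S hT)
    refine ⟨j, U, hUc, v, hv, ?_⟩
    rcases hv' with h | ⟨y, hy, h⟩
    · exact Or.inl ((hmem v).1 h)
    · exact Or.inr ⟨y, (hmem y).1 hy, h⟩
  · intro hT
    obtain ⟨v, hv, hv'⟩ := h2 (Fin n → Bool) (zeroF n) S P (fun x => flipF x j) C hP hS
      (fun x => loc_flip_flip x j) (fun x => loc_flip_neq x j) h0 heven (hclos P hT)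
    refine ⟨j, U, hUc, v, hv, ?_⟩
    rcases hv' with h | h | ⟨y, hy, h⟩
    · exact Or.inl ((hmem v).1 h)
    · refine Or.inl ((hmem v).1 ?_)
      rw [h]
      exact hflip _ h0
    · exact Or.inr ⟨y, (hmem y).1 hy, h⟩

end Pool.Agent.H424R7.FT
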