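import Pool.Agent.H424R7.FT.Stm

/-!
# Outputs which are not connected with an input do not depend on it
-/

set_option autoImplicit false

namespace Pool.Agent.H424R7.FT

open Pool.Agent.NPC Pool.Agent.H424R2.PPAD Pool.Agent.H547R6

theorem osem_inv (gs : List (ℕ × ℕ)) (w w' f : List Bool) (h1 : w.length = w'.length)
    (h2 : w.length = f.length)
    (h3 : ∀ t, f.getD t false = false → w.getD t false = w'.getD t false) :
    ∀ t, (gs.foldl (fun w g => w ++ [w.getD g.1 false || w.getD g.2 false]) f).getD t false
      = false →
      (gs.foldl (fun w g => w ++ [!(w.getD g.1 false && w.getD g.2 false)]) w).getD t false =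
      (gs.foldl (fun w g => w ++ [!(w.getD g.1 false && w.getD g.2 false)]) w').getD t false := by
  induction gs generalizing w w' f with
  | nil => exact h3
  | cons g gs ih =>
    simp only [List.foldl_cons]
    refine ih _ _ _ (by simp [h1]) (by simp [h2]) ?_
    intro t ht
    rcases lt_trichotomy t f.length with hlt | heq | hgt
    · rw [List.getD_append _ _ _ _ hlt] at ht
      rw [List.getD_append _ _ _ _ (by omega), List.getD_append _ _ _ _ (by omega)]
      exact h3 t ht
    · subst heq
      have e1 : (f ++ [f.getD g.1 false || f.getD g.2 false]).getD f.length false =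
          (f.getD g.1 false || f.getD g.2 false) := by
        simp [List.getD_eq_getElem?_getD]
      rw [e1, Bool.or_eq_false_iff] at ht
      have e2 : (w ++ [!(w.getD g.1 false && w.getD g.2 false)]).getD f.length false =
          !(w.getD g.1 false && w.getD g.2 false) := by
        rw [← h2]
        simp [List.getD_eq_getElem?_getD]
      have e3 : (w' ++ [!(w'.getD g.1 false && w'.getD g.2 false)]).getD f.length false =
          !(w'.getD g.1 false && w'.getD g.2 false) := by
        rw [← h2, h1]
        simp [List.getD_eq_getElem?_getD]
      rw [e2, e3, h3 _ ht.1, h3 _ ht.2]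
    · rw [List.getD_eq_default _ _ (by simp; omega), List.getD_eq_default _ _ (by simp; omega)]

theorem OSEM_proof : S_OSEM := by
  intro C n j i x hx h
  unfold conn at h
  unfold Circ.eval Circ.wires
  by_cases hi : i < C.2.length
  · rw [List.getD_eq_getElem _ _ (by simpa using hi)] at h ⊢
    rw [List.getD_eq_getElem _ _ (by simpa using hi)]
    simp only [List.getElem_map] at h ⊢
    unfold owires at h
    refine osem_inv C.1 x (xorL n x (unitL n j)) (unitL n j) ?_ ?_ ?_ _ h
    · simp [xorL, hx]
    · simp [unitL, hx]
    · intro t ht
      by_cases htn : t < n
      · have e1 : (unitL n j).getD t false = decide (t = j) := by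
          unfold unitL
          rw [List.getD_eq_getElem _ _ (by simpa using htn)]
          simp
        have e2 : (xorL n x (unitL n j)).getD t false =
            xor (x.getD t false) ((unitL n j).getD t false) := by
          unfold xorL
          rw [List.getD_eq_getElem _ _ (by simpa using htn)]
          simp
        rw [e2, ht]
        simp
      · rw [List.getD_eq_default _ _ (by omega),
          List.getD_eq_default _ _ (by simp [xorL]; omega)]
  · rw [List.getD_eq_default _ _ (by simpa using hi), List.getD_eq_default _ _ (by simpa using hi)]

end Pool.Agent.H424R7.FT
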