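import Pool.Agent.H424R7.FT.Stm

/-!
# PADE: the function computed by the padded circuit (helper314)
-/

set_option autoImplicit false

namespace Pool.Agent.H424R7.FT

open Pool.Agent.NPC Pool.Agent.H424R2.PPAD Pool.Agent.H547R6

/-- reading a wire below `b` -/
def padeRd (w : List Bool) (b r : ℕ) : Bool := if r < b then w.getD r false else false

/-- the wires of a list of gates -/
def padeW (gs : List (ℕ × ℕ)) (x : List Bool) : List Bool :=
  gs.foldl (fun w g => w ++ [!(w.getD g.1 false && w.getD g.2 false)]) x

theorem pade_getD_ge (w : List Bool) {r : ℕ} (h : w.length ≤ r) : w.getD r false = false := by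
  rw [List.getD_eq_getElem?_getD, List.getElem?_eq_none h]
  rfl

theorem pade_rd_length (w : List Bool) (r : ℕ) : padeRd w w.length r = w.getD r false := by
  unfold padeRd
  split_ifs with h
  · rfl
  · exact (pade_getD_ge w (by omega)).symm

theorem pade_rd_append (w v : List Bool) {b : ℕ} (hb : b ≤ w.length) (r : ℕ) :
    padeRd (w ++ v) b r = padeRd w b r := by
  unfold padeRd
  split_ifs with h
  · rw [List.getD_append _ _ _ _ (by omega)]
  · rfl

theorem pade_spec (gs : List (ℕ × ℕ)) (x : List Bool) :
    (padeW gs x).length = x.length + gs.length ∧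
    (∀ i < x.length, (padeW gs x).getD i false = x.getD i false) ∧
    ∀ j < gs.length, (padeW gs x).getD (x.length + j) false =
      !(padeRd (padeW gs x) (x.length + j) (gs.getD j (0, 0)).1 &&
        padeRd (padeW gs x) (x.length + j) (gs.getD j (0, 0)).2) := by
  induction gs using List.reverseRecOn with
  | nil => exact ⟨rfl, fun _ _ => rfl, fun j hj => absurd hj (by simp)⟩
  | append_singleton gs g ih =>
    obtain ⟨h1, h2, h3⟩ := ih
    have e : padeW (gs ++ [g]) x = padeW gs x ++
        [!((padeW gs x).getD g.1 false && (padeW gs x).getD g.2 false)] := by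
      unfold padeW
      rw [List.foldl_append]
      rfl
    refine ⟨?_, ?_, ?_⟩
    · rw [e, List.length_append, h1, List.length_append]
      simp only [List.length_cons, List.length_nil]
      omega
    · intro i hi
      rw [e, List.getD_append _ _ _ _ (by omega)]
      exact h2 i hi
    · intro j hj
      rw [List.length_append] at hj
      simp only [List.length_cons, List.length_nil] at hj
      by_cases hj' : j < gs.length
      · rw [e, List.getD_append _ _ _ _ (by omega), pade_rd_append _ _ (by omega),
          pade_rd_append _ _ (by omega), List.getD_append _ _ _ _ hj']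
        exact h3 j hj'
      · have hj2 : j = gs.length := by omega
        subst hj2
        have hg : (gs ++ [g]).getD gs.length (0, 0) = g := by
          rw [List.getD_append_right _ _ _ _ (le_refl _)]
          simp
        rw [hg, e, ← h1, pade_rd_append _ _ (le_refl _), pade_rd_append _ _ (le_refl _),
          pade_rd_length, pade_rd_length, List.getD_append_right _ _ _ _ (le_refl _)]
        simp

theorem pade_map {α : Type} (N : ℕ) (f : ℕ → α) (d : α) {i : ℕ} (h : i < N) :
    ((List.range N).map f).getD i d = f i := by
  rw [List.getD_eq_getElem?_getD, List.getElem?_map, List.getElem?_range h]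
  rfl

theorem pade_zeros (D : ℕ) (d : List Bool) (hd : d.length = D) :
    (∀ l < D, d.getD l false = false) ↔ d = zeros D := by
  constructor
  · intro h
    apply List.ext_getElem
    · rw [hd]; unfold zeros; simp
    · intro i h1 h2
      have h3 := h i (by omega)
      rw [List.getD_eq_getElem _ _ h1] at h3
      rw [h3]
      unfold zeros
      exact (List.getElem_replicate _).symm
  · rintro rfl l hl
    unfold zeros
    rw [List.getD_eq_getElem _ _ (by simpa using hl)]
    simp

theorem PADE_proof : S_PADE := by
  intro D C x d hC hd
  set m := x.length with hm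
  set n := m + D with hn
  set z := n + 3 * D with hz
  set G := C.1.length with hG
  set q := z + 1 + G with hq
  set big := q + 1 + 3 * m with hbig
  set fA : ℕ → ℕ × ℕ := fun i =>
      if i % 3 = 0 then (m + i / 3, m + i / 3)
      else if i % 3 = 1 then (n + 3 * (i / 3), n + 3 * (i / 3) + 1)
      else (n + 3 * (i / 3) + 2, n + 3 * (i / 3) + 2) with hfA
  set fB : ℕ → ℕ × ℕ := fun j =>
      (ren z big m j (C.1.getD j (0, 0)).1, ren z big m j (C.1.getD j (0, 0)).2) with hfB
  set fC : ℕ → ℕ × ℕ := fun i =>
      if i % 3 = 0 then (z, ren z big m G (C.2.getD (i / 3) 0))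
      else if i % 3 = 1 then (q, i / 3)
      else (q + 3 * (i / 3) + 1, q + 3 * (i / 3) + 2) with hfC
  set L : List (ℕ × ℕ) := ((big, big) :: (List.range (3 * D)).map fA) ++
    ((List.range G).map fB ++ ((z, z) :: (List.range (3 * m)).map fC)) with hL
  have hpad : padD D m C = (L, (List.range m).map (fun i => q + 3 * i + 3) ++
      (List.range D).map (fun l => m + l)) := rfl
  have hxd : (x ++ d).length = n := by rw [List.length_append, hd]
  have hLlen : L.length = 3 * D + 1 + (G + (3 * m + 1)) := by
    rw [hL]; simp; omega
  -- the gates
  have g0 : L.getD 0 (0, 0) = (big, big) := rfl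
  have gA : ∀ i < 3 * D, L.getD (1 + i) (0, 0) = fA i := by
    intro i hi
    rw [hL, List.getD_append _ _ _ _ (by simp <;> omega), add_comm 1 i, List.getD_cons_succ,
      pade_map _ _ _ hi]
  have gB : ∀ j < G, L.getD (3 * D + 1 + j) (0, 0) = fB j := by
    intro j hj
    rw [hL, List.getD_append_right _ _ _ _ (by simp <;> omega)]
    have e1 : 3 * D + 1 + j - ((big, big) :: (List.range (3 * D)).map fA).length = j := by
      simp <;> omega
    rw [e1, List.getD_append _ _ _ _ (by simpa using hj), pade_map _ _ _ hj]
  have gq : L.getD (3 * D + 1 + G) (0, 0) = (z, z) := by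
    rw [hL, List.getD_append_right _ _ _ _ (by simp <;> omega)]
    have e1 : 3 * D + 1 + G - ((big, big) :: (List.range (3 * D)).map fA).length = G := by
      simp <;> omega
    rw [e1, List.getD_append_right _ _ _ _ (by simp)]
    have e2 : G - ((List.range G).map fB).length = 0 := by simp
    rw [e2]
    rfl
  have gC : ∀ i < 3 * m, L.getD (3 * D + 1 + G + 1 + i) (0, 0) = fC i := by
    intro i hi
    rw [hL, List.getD_append_right _ _ _ _ (by simp <;> omega)]
    have e1 : 3 * D + 1 + G + 1 + i - ((big, big) :: (List.range (3 * D)).map fA).length =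
        G + 1 + i := by
      simp <;> omega
    rw [e1, List.getD_append_right _ _ _ _ (by simp <;> omega)]
    have e2 : G + 1 + i - ((List.range G).map fB).length = i + 1 := by simp <;> omega
    rw [e2, List.getD_cons_succ, pade_map _ _ _ hi]
  -- the wires
  obtain ⟨w1, w2, w3⟩ := pade_spec L (x ++ d)
  rw [hxd] at w1 w2 w3
  set W := padeW L (x ++ d) with hW
  have rdlt : ∀ b r, r < b → padeRd W b r = W.getD r false := by
    intro b r h
    unfold padeRd
    rw [if_pos h]
  have rdge : ∀ b r, b ≤ r → padeRd W b r = false := by
    intro b r h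
    unfold padeRd
    rw [if_neg (by omega)]
  have hin : ∀ i < m, W.getD i false = x.getD i false := by
    intro i hi
    rw [w2 i (by omega), List.getD_append _ _ _ _ hi]
  have hdl : ∀ l < D, W.getD (m + l) false = d.getD l false := by
    intro l hl
    rw [w2 (m + l) (by omega), List.getD_append_right _ _ _ _ (by omega)]
    congr 1
    omega
  -- first part
  have eA0 : W.getD n false = true := by
    have h := w3 0 (by omega)
    rw [g0, rdge _ _ (by show n + 0 ≤ big; omega)] at h
    simpa using h
  have eA1 : ∀ l < D, W.getD (n + 3 * l + 1) false = !(d.getD l false) := by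
    intro l hl
    have h := w3 (1 + 3 * l) (by omega)
    rw [gA (3 * l) (by omega), hfA] at h
    simp only [Nat.mul_mod_right, if_true] at h
    rw [show 3 * l / 3 = l by omega, rdlt _ _ (by omega), hdl l hl, Bool.and_self] at h
    rw [← h]
    congr 1
    omega
  have eA2 : ∀ l < D, W.getD (n + 3 * l + 2) false =
      !(W.getD (n + 3 * l) false && W.getD (n + 3 * l + 1) false) := by
    intro l hl
    have h := w3 (1 + (3 * l + 1)) (by omega)
    rw [gA (3 * l + 1) (by omega), hfA] at h
    simp only at h
    rw [if_neg (by omega), if_pos (by omega), show (3 * l + 1) / 3 = l by omega,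
      rdlt _ _ (by show n + 3 * l < _; omega), rdlt _ _ (by show n + 3 * l + 1 < _; omega)] at h
    rw [← h]
    congr 1
    omega
  have eA3 : ∀ l < D, W.getD (n + 3 * (l + 1)) false = !(W.getD (n + 3 * l + 2) false) := by
    intro l hl
    have h := w3 (1 + (3 * l + 2)) (by omega)
    rw [gA (3 * l + 2) (by omega), hfA] at h
    simp only at h
    rw [if_neg (by omega), if_neg (by omega), show (3 * l + 2) / 3 = l by omega,
      rdlt _ _ (by show n + 3 * l + 2 < _; omega), Bool.and_self] at h
    rw [← h]
    congr 1
    omega
  have eA : ∀ l ≤ D, (W.getD (n + 3 * l) false = true ↔ ∀ i < l, d.getD i false = false) := by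
    intro l
    induction l with
    | zero =>
      intro _
      rw [mul_zero, add_zero, eA0]
      simp
    | succ l ih =>
      intro hl
      rw [eA3 l (by omega), eA2 l (by omega), eA1 l (by omega), Bool.not_not, Bool.and_eq_true,
        ih (by omega), Bool.not_eq_true']
      constructor
      · rintro ⟨h1, h2⟩ i hi
        rcases Nat.lt_succ_iff_lt_or_eq.1 hi with h3 | h3
        · exact h1 i h3
        · rw [h3]; exact h2
      · intro h1
        exact ⟨fun i hi => h1 i (by omega), h1 l (by omega)⟩
  have ez : W.getD z false = decide (d = zeros D) := by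
    rw [Bool.eq_iff_iff, decide_eq_true_eq, ← pade_zeros D d hd]
    exact eA D le_rfl
  -- second part
  obtain ⟨c1, c2, c3⟩ := pade_spec C.1 x
  rw [← hm] at c1 c2 c3
  set Wc := padeW C.1 x with hWc
  have eR : ∀ j ≤ G, (∀ i < j, W.getD (z + 1 + i) false = Wc.getD (m + i) false) → ∀ t b,
      z + 1 + j ≤ b → b ≤ big → padeRd W b (ren z big m j t) = padeRd Wc (m + j) t := by
    intro j hj ih t b hb hb'
    unfold ren
    by_cases h1 : t < m
    · rw [if_pos h1, rdlt _ _ (by omega), hin t h1]
      unfold padeRd
      rw [if_pos (by omega), c2 t h1]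
    · rw [if_neg h1]
      by_cases h2 : t < m + j
      · rw [if_pos h2, rdlt _ _ (by omega), ih (t - m) (by omega)]
        unfold padeRd
        rw [if_pos h2]
        congr 1
        omega
      · rw [if_neg h2, rdge _ _ hb']
        unfold padeRd
        rw [if_neg h2]
  have eB : ∀ j < G, W.getD (z + 1 + j) false = Wc.getD (m + j) false := by
    intro j
    induction j using Nat.strong_induction_on with
    | _ j ih =>
      intro hj
      have h := w3 (3 * D + 1 + j) (by omega)
      rw [gB j hj, hfB] at h
      simp only at h
      have e1 : n + (3 * D + 1 + j) = z + 1 + j := by omega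
      rw [e1, eR j (by omega) (fun i hi => ih i hi (by omega)) _ _ le_rfl (by omega),
        eR j (by omega) (fun i hi => ih i hi (by omega)) _ _ le_rfl (by omega)] at h
      rw [h, c3 j hj]
  have eq : W.getD q false = !(W.getD z false) := by
    have h := w3 (3 * D + 1 + G) (by omega)
    rw [gq] at h
    simp only at h
    rw [rdlt _ _ (by omega), Bool.and_self] at h
    rw [← h]
    congr 1
    omega
  have hout : ∀ o, padeRd Wc (m + G) o = Wc.getD o false := by
    intro o
    rw [← pade_rd_length Wc o, c1]
  have eC1 : ∀ l < m, W.getD (q + 3 * l + 1) false =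
      !(W.getD z false && Wc.getD (C.2.getD l 0) false) := by
    intro l hl
    have h := w3 (3 * D + 1 + G + 1 + 3 * l) (by omega)
    rw [gC (3 * l) (by omega), hfC] at h
    simp only [Nat.mul_mod_right, if_true] at h
    rw [show 3 * l / 3 = l by omega, rdlt _ z (by omega),
      eR G le_rfl (fun i hi => eB i hi) _ _ (by omega) (by omega), hout] at h
    rw [← h]
    congr 1
    omega
  have eC2 : ∀ l < m, W.getD (q + 3 * l + 2) false =
      !(W.getD q false && x.getD l false) := by
    intro l hl
    have h := w3 (3 * D + 1 + G + 1 + (3 * l + 1)) (by omega)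
    rw [gC (3 * l + 1) (by omega), hfC] at h
    simp only at h
    rw [if_neg (by omega), if_pos (by omega), show (3 * l + 1) / 3 = l by omega] at h
    simp only at h
    rw [rdlt _ q (by omega), rdlt _ l (by omega), hin l hl] at h
    rw [← h]
    congr 1
    omega
  have eC3 : ∀ l < m, W.getD (q + 3 * l + 3) false =
      !(W.getD (q + 3 * l + 1) false && W.getD (q + 3 * l + 2) false) := by
    intro l hl
    have h := w3 (3 * D + 1 + G + 1 + (3 * l + 2)) (by omega)
    rw [gC (3 * l + 2) (by omega), hfC] at h
    simp only at h
    rw [if_neg (by omega), if_neg (by omega), show (3 * l + 2) / 3 = l by omega] at h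
    simp only at h
    rw [rdlt _ (q + 3 * l + 1) (by omega), rdlt _ (q + 3 * l + 2) (by omega)] at h
    rw [← h]
    congr 1
    omega
  have eO : ∀ l < m, W.getD (q + 3 * l + 3) false =
      if d = zeros D then (C.eval x).getD l false else x.getD l false := by
    intro l hl
    have e1 : (C.eval x).getD l false = Wc.getD (C.2.getD l 0) false := by
      have hl2 : l < C.2.length := by omega
      unfold Circ.eval
      rw [List.getD_eq_getElem _ _ (by simpa using hl2), List.getElem_map,
        List.getD_eq_getElem _ _ hl2]
      rfl
    rw [eC3 l hl, eC1 l hl, eC2 l hl, eq, ez, e1]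
    by_cases h : d = zeros D
    · simp [h]
    · simp [h]
  -- conclusion
  rw [hpad]
  have hev : Circ.eval (L, (List.range m).map (fun i => q + 3 * i + 3) ++
      (List.range D).map (fun l => m + l)) (x ++ d) =
      (List.range m).map (fun i => W.getD (q + 3 * i + 3) false) ++
        (List.range D).map (fun l => W.getD (m + l) false) := by
    unfold Circ.eval
    rw [List.map_append, List.map_map, List.map_map]
    rfl
  rw [hev]
  have hD : (List.range D).map (fun l => W.getD (m + l) false) = d := by
    apply List.ext_getElem
    · simp [hd]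
    · intro i h1 h2
      rw [List.getElem_map, List.getElem_range, hdl i (by omega), List.getD_eq_getElem _ _ h2]
  have hM : (List.range m).map (fun i => W.getD (q + 3 * i + 3) false) =
      if d = zeros D then C.eval x else x := by
    have hlen : (if d = zeros D then C.eval x else x).length = m := by
      split_ifs
      · unfold Circ.eval
        rw [List.length_map]; exact hC
      · rfl
    apply List.ext_getElem
    · rw [hlen]; simp
    · intro i h1 h2
      rw [List.getElem_map, List.getElem_range, eO i (by omega), ← List.getD_eq_getElem _ false h2]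
      split_ifs <;> rfl
  rw [hD, hM]
  split_ifs <;> rfl

end Pool.Agent.H424R7.FT
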