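import Pool.Agent.H424R7.FT.Stm

/-!
# PADF: the fan-outs of the padded circuit
-/

set_option autoImplicit false

namespace Pool.Agent.H424R7.FT

open Pool.Agent.NPC Pool.Agent.H424R2.PPAD Pool.Agent.H547R6

private lemma padf_getD_append (w t : List Bool) (i : ℕ) (hi : i < w.length) :
    (w ++ t).getD i false = w.getD i false := by
  rw [List.getD_eq_getElem?_getD, List.getD_eq_getElem?_getD, List.getElem?_append_left hi]

private lemma padf_owires : ∀ (gs : List (ℕ × ℕ)) (x : List Bool) (i : ℕ), i < x.length →
    (owires gs x).getD i false = x.getD i false := by
  intro gs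
  induction gs with
  | nil => intro x i _; rfl
  | cons g gs ih =>
    intro x i hi
    have h := ih (x ++ [x.getD g.1 false || x.getD g.2 false]) i
      (by rw [List.length_append]; omega)
    have e : owires (g :: gs) x = owires gs (x ++ [x.getD g.1 false || x.getD g.2 false]) := rfl
    rw [e, h, padf_getD_append _ _ _ hi]

private lemma padf_unit (n j i : ℕ) (hi : i < n) :
    (unitL n j).getD i false = decide (i = j) := by
  unfold unitL
  rw [List.getD_eq_getElem?_getD, List.getElem?_map, List.getElem?_range hi]
  rfl

private lemma padf_count (m j : ℕ) : ∀ D : ℕ,
    ((List.range D).map fun l => decide (m + l = j)).count true ≤ 1 ∧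
    (j < m ∨ m + D ≤ j → ((List.range D).map fun l => decide (m + l = j)).count true = 0) := by
  intro D
  induction D with
  | zero => simp
  | succ D ih =>
    rw [List.range_succ, List.map_append, List.count_append]
    obtain ⟨h1, h2⟩ := ih
    by_cases h : m + D = j
    · have h0 := h2 (Or.inr (by omega))
      rw [h0]
      refine ⟨?_, ?_⟩
      · simp [h]
      · intro h'; exfalso; omega
    · have e : (List.map (fun l => decide (m + l = j)) [D]).count true = 0 := by
        simp [h]
      rw [e]
      refine ⟨by omega, ?_⟩
      intro h'
      rw [h2 (by omega)]

/-- PADF: the fan-outs of the padded circuit. -/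
theorem PADF_proof : S_PADF := by
  intro D m C j
  unfold fan conn
  have e2 : (padD D m C).2 = (List.range m).map (fun i => (m + D + 3 * D + 1 + C.1.length) + 3 * i + 3)
      ++ (List.range D).map (fun l => m + l) := rfl
  rw [e2, List.map_append, List.count_append]
  have h1 : (List.map (fun i => (owires (padD D m C).1 (unitL (m + D) j)).getD i false)
      ((List.range m).map (fun i => (m + D + 3 * D + 1 + C.1.length) + 3 * i + 3))).count true ≤ m := by
    refine le_trans (List.count_le_length) ?_
    simp
  have h2 : List.map (fun i => (owires (padD D m C).1 (unitL (m + D) j)).getD i false)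
      ((List.range D).map (fun l => m + l)) = (List.range D).map fun l => decide (m + l = j) := by
    rw [List.map_map]
    apply List.map_congr_left
    intro l hl
    have hl' : l < D := List.mem_range.mp hl
    have hlen : (unitL (m + D) j).length = m + D := by simp [unitL]
    show (owires (padD D m C).1 (unitL (m + D) j)).getD (m + l) false = decide (m + l = j)
    rw [padf_owires _ _ _ (by rw [hlen]; omega), padf_unit _ _ _ (by omega)]
  rw [h2]
  have h3 := (padf_count m j D).1
  omega

end Pool.Agent.H424R7.FT
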