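import Pool.Agent.H424R7.FT.Stm

/-!
# PADP: the padded instance is computed in polynomial time
-/

set_option autoImplicit false

namespace Pool.Agent.H424R7.FT

open Pool.Agent.NPC Pool.Agent.H424R2.PPAD Pool.Agent.H547R6

section PADP

variable {α : Type} [TEnc α]

theorem padp_ren {z big m j t : α → ℕ} (hz : Poly z) (hb : Poly big) (hm : Poly m)
    (hj : Poly j) (ht : Poly t) : Poly (fun a => ren (z a) (big a) (m a) (j a) (t a)) := by
  unfold ren
  exact Poly.ite (Poly.decide_lt ht hm) ht (Poly.ite (Poly.decide_lt ht (Poly.add hm hj))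
    (Poly.add (Poly.add hz (NPC.Poly.const 1)) (Poly.sub ht hm)) hb)

theorem padp_pow {n : α → ℕ} (hn : UPoly n) (r : ℕ) : UPoly (fun a => (n a + 1) ^ r) := by
  induction r with
  | zero => simpa using (UPoly.const (α := α) 1)
  | succ r ih =>
    have h := UPoly.mul ih (UPoly.add hn (UPoly.const 1))
    simpa only [pow_succ] using h

theorem padp_main {D m : α → ℕ} {C : α → Circ} (hD : UPoly D) (hm : UPoly m) (hC : Poly C) :
    Poly (fun a => padD (D a) (m a) (C a)) := by
  -- the numbers, as functions of `a`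
  have D0 : Poly D := hD.toPoly
  have m0 : Poly m := hm.toPoly
  have k1 : Poly (fun _ : α => 1) := NPC.Poly.const 1
  have k3 : Poly (fun _ : α => 3) := NPC.Poly.const 3
  have n0 : Poly (fun a => m a + D a) := Poly.add m0 D0
  have z0 : Poly (fun a => m a + D a + 3 * D a) := Poly.add n0 (Poly.mul k3 D0)
  have G0 : Poly (fun a => (C a).1.length) := Poly.length (Poly.fst hC)
  have q0 : Poly (fun a => m a + D a + 3 * D a + 1 + (C a).1.length) :=
    Poly.add (Poly.add z0 k1) G0
  have b0 : Poly (fun a => m a + D a + 3 * D a + 1 + (C a).1.length + 1 + 3 * m a) :=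
    Poly.add (Poly.add q0 k1) (Poly.mul k3 m0)
  -- the same with an additional number
  have i' : Poly (fun p : α × ℕ => p.2) := Poly.snd Poly.id
  have f' : Poly (fun p : α × ℕ => p.1) := Poly.fst Poly.id
  have m' : Poly (fun p : α × ℕ => m p.1) := m0.comp f'
  have n' : Poly (fun p : α × ℕ => m p.1 + D p.1) := n0.comp f'
  have z' : Poly (fun p : α × ℕ => m p.1 + D p.1 + 3 * D p.1) := z0.comp f'
  have G' : Poly (fun p : α × ℕ => (C p.1).1.length) := G0.comp f'
  have q' : Poly (fun p : α × ℕ => m p.1 + D p.1 + 3 * D p.1 + 1 + (C p.1).1.length) :=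
    q0.comp f'
  have b' : Poly (fun p : α × ℕ =>
      m p.1 + D p.1 + 3 * D p.1 + 1 + (C p.1).1.length + 1 + 3 * m p.1) := b0.comp f'
  have C' : Poly (fun p : α × ℕ => C p.1) := hC.comp f'
  have c0 : Poly (fun _ : α × ℕ => 0) := NPC.Poly.const 0
  have c1 : Poly (fun _ : α × ℕ => 1) := NPC.Poly.const 1
  have c2 : Poly (fun _ : α × ℕ => 2) := NPC.Poly.const 2
  have c3 : Poly (fun _ : α × ℕ => 3) := NPC.Poly.const 3
  have d3 : Poly (fun p : α × ℕ => p.2 / 3) := Poly.div i' c3
  have r3 : Poly (fun p : α × ℕ => p.2 % 3) := Poly.mod i' c3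
  have t3 : Poly (fun p : α × ℕ => 3 * (p.2 / 3)) := Poly.mul c3 d3
  -- the ranges
  have R1 : Poly (fun a => List.range (3 * D a)) := (UPoly.mul (UPoly.const 3) hD).range
  have R2 : Poly (fun a => List.range (C a).1.length) := (UPoly.length (Poly.fst hC)).range
  have R3 : Poly (fun a => List.range (3 * m a)) := (UPoly.mul (UPoly.const 3) hm).range
  have R4 : Poly (fun a => List.range (m a)) := hm.range
  have R5 : Poly (fun a => List.range (D a)) := hD.range
  -- the gates
  have L1 : Poly (fun a => (List.range (3 * D a)).map (fun i =>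
      if i % 3 = 0 then (m a + i / 3, m a + i / 3)
      else if i % 3 = 1 then (m a + D a + 3 * (i / 3), m a + D a + 3 * (i / 3) + 1)
      else (m a + D a + 3 * (i / 3) + 2, m a + D a + 3 * (i / 3) + 2))) := by
    refine NPC.Poly.map (F := fun a i =>
      if i % 3 = 0 then (m a + i / 3, m a + i / 3)
      else if i % 3 = 1 then (m a + D a + 3 * (i / 3), m a + D a + 3 * (i / 3) + 1)
      else (m a + D a + 3 * (i / 3) + 2, m a + D a + 3 * (i / 3) + 2)) R1 ?_
    exact Poly.ite (Poly.decide_eq r3 c0) (Poly.pair (Poly.add m' d3) (Poly.add m' d3))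
      (Poly.ite (Poly.decide_eq r3 c1)
        (Poly.pair (Poly.add n' t3) (Poly.add (Poly.add n' t3) c1))
        (Poly.pair (Poly.add (Poly.add n' t3) c2) (Poly.add (Poly.add n' t3) c2)))
  have L2 : Poly (fun a => (List.range (C a).1.length).map (fun j =>
      (ren (m a + D a + 3 * D a) (m a + D a + 3 * D a + 1 + (C a).1.length + 1 + 3 * m a) (m a) j
          ((C a).1.getD j (0, 0)).1,
        ren (m a + D a + 3 * D a) (m a + D a + 3 * D a + 1 + (C a).1.length + 1 + 3 * m a) (m a) j
          ((C a).1.getD j (0, 0)).2))) := by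
    refine NPC.Poly.map (F := fun a j =>
      (ren (m a + D a + 3 * D a) (m a + D a + 3 * D a + 1 + (C a).1.length + 1 + 3 * m a) (m a) j
          ((C a).1.getD j (0, 0)).1,
        ren (m a + D a + 3 * D a) (m a + D a + 3 * D a + 1 + (C a).1.length + 1 + 3 * m a) (m a) j
          ((C a).1.getD j (0, 0)).2)) R2 ?_
    have g : Poly (fun p : α × ℕ => (C p.1).1.getD p.2 (0, 0)) :=
      Poly.getD (Poly.fst C') i' (NPC.Poly.const _)
    exact Poly.pair (padp_ren z' b' m' i' (Poly.fst g)) (padp_ren z' b' m' i' (Poly.snd g))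
  have L3 : Poly (fun a => (List.range (3 * m a)).map (fun i =>
      if i % 3 = 0 then (m a + D a + 3 * D a,
        ren (m a + D a + 3 * D a) (m a + D a + 3 * D a + 1 + (C a).1.length + 1 + 3 * m a) (m a)
          (C a).1.length ((C a).2.getD (i / 3) 0))
      else if i % 3 = 1 then (m a + D a + 3 * D a + 1 + (C a).1.length, i / 3)
      else (m a + D a + 3 * D a + 1 + (C a).1.length + 3 * (i / 3) + 1,
        m a + D a + 3 * D a + 1 + (C a).1.length + 3 * (i / 3) + 2))) := by
    refine NPC.Poly.map (F := fun a i =>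
      if i % 3 = 0 then (m a + D a + 3 * D a,
        ren (m a + D a + 3 * D a) (m a + D a + 3 * D a + 1 + (C a).1.length + 1 + 3 * m a) (m a)
          (C a).1.length ((C a).2.getD (i / 3) 0))
      else if i % 3 = 1 then (m a + D a + 3 * D a + 1 + (C a).1.length, i / 3)
      else (m a + D a + 3 * D a + 1 + (C a).1.length + 3 * (i / 3) + 1,
        m a + D a + 3 * D a + 1 + (C a).1.length + 3 * (i / 3) + 2)) R3 ?_
    have g : Poly (fun p : α × ℕ => (C p.1).2.getD (p.2 / 3) 0) :=
      Poly.getD (Poly.snd C') d3 (NPC.Poly.const _)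
    exact Poly.ite (Poly.decide_eq r3 c0) (Poly.pair z' (padp_ren z' b' m' G' g))
      (Poly.ite (Poly.decide_eq r3 c1) (Poly.pair q' d3)
        (Poly.pair (Poly.add (Poly.add q' t3) c1) (Poly.add (Poly.add q' t3) c2)))
  -- the outputs
  have L4 : Poly (fun a => (List.range (m a)).map
      (fun i => m a + D a + 3 * D a + 1 + (C a).1.length + 3 * i + 3)) := by
    refine NPC.Poly.map (F := fun a i =>
      m a + D a + 3 * D a + 1 + (C a).1.length + 3 * i + 3) R4 ?_
    exact Poly.add (Poly.add q' (Poly.mul c3 i')) c3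
  have L5 : Poly (fun a => (List.range (D a)).map (fun l => m a + l)) :=
    NPC.Poly.map (F := fun a l => m a + l) R5 (Poly.add m' i')
  exact Poly.pair (Poly.append (Poly.cons (Poly.pair b0 b0) L1)
    (Poly.append L2 (Poly.cons (Poly.pair z0 z0) L3))) (Poly.append L4 L5)

end PADP

theorem PADP_proof : S_PADP := by
  intro r
  apply PTime.of_poly
  have hn : UPoly (fun I : Circ × Circ => eolN I) := UPoly.length (Poly.snd (Poly.fst Poly.id))
  have hD : UPoly (fun I : Circ × Circ => (eolN I + 1) ^ r) := padp_pow hn r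
  exact Poly.pair (padp_main hD hn (Poly.fst Poly.id)) (padp_main hD hn (Poly.snd Poly.id))

end Pool.Agent.H424R7.FT
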