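import Pool.Agent.H424R7.FT.Stm

/-!
# The reduction to the padded instance (task PADR)
-/

set_option autoImplicit false

namespace Pool.Agent.H424R7.FT

open Pool.Agent.NPC Pool.Agent.H424R2.PPAD Pool.Agent.H547R6

theorem padr_len (C : Circ) (x : List Bool) : (C.eval x).length = C.2.length := by
  unfold Circ.eval
  rw [List.length_map]

theorem padr_outs (D m : ℕ) (C : Circ) : (padD D m C).2.length = m + D := by
  unfold padD
  simp only [List.length_append, List.length_map, List.length_range]

theorem padr_zeros (m D : ℕ) : zeros (m + D) = zeros m ++ zeros D := by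
  unfold zeros
  rw [List.replicate_add]

theorem padr_eval (h1 : S_PADE) (D m : ℕ) (C : Circ) (x d : List Bool) (hC : C.2.length = m)
    (hx : x.length = m) (hd : d.length = D) :
    (padD D m C).eval (x ++ d) = if d = zeros D then C.eval x ++ d else x ++ d := by
  have h := h1 D C x d (hC.trans hx.symm) hd
  rw [hx] at h
  exact h

theorem padr_main (h1 : S_PADE) (h2 : S_PADF) (r : ℕ) (I : Circ × Circ) (hI : EOL.Valid I) :
    (EOLr (Thin r)).Valid (padI r I) ∧
      ∀ y, (EOLr (Thin r)).IsSol (padI r I) y → EOL.IsSol I (y.take (eolN I)) := by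
  obtain ⟨a1, a2, a3⟩ := hI
  have hn : eolN (padI r I) = eolN I + (eolN I + 1) ^ r := padr_outs _ _ _
  have a0 : I.1.2.length = eolN I := rfl
  have hzl : (zeros (eolN I)).length = eolN I := by
    unfold zeros
    rw [List.length_replicate]
  have hzD : (zeros ((eolN I + 1) ^ r)).length = (eolN I + 1) ^ r := by
    unfold zeros
    rw [List.length_replicate]
  have eS : ∀ x d : List Bool, x.length = eolN I → d.length = (eolN I + 1) ^ r →
      (padI r I).1.eval (x ++ d) = if d = zeros ((eolN I + 1) ^ r) then I.1.eval x ++ d
        else x ++ d := fun x d hx hd => padr_eval h1 _ _ I.1 x d a0 hx hd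
  have eP : ∀ x d : List Bool, x.length = eolN I → d.length = (eolN I + 1) ^ r →
      (padI r I).2.eval (x ++ d) = if d = zeros ((eolN I + 1) ^ r) then I.2.eval x ++ d
        else x ++ d := fun x d hx hd => padr_eval h1 _ _ I.2 x d a1 hx hd
  constructor
  · refine ⟨⟨?_, ?_, ?_⟩, ?_⟩
    · rw [hn]
      exact padr_outs _ _ _
    · rw [hn, padr_zeros, eP _ _ hzl hzD, if_pos rfl, a2]
    · rw [hn, padr_zeros, eS _ _ hzl hzD, if_pos rfl]
      intro h
      exact a3 (List.append_cancel_right h)
    · intro j hj
      rw [hn]
      have e1 : fan (padI r I).1 (eolN I + (eolN I + 1) ^ r) j ≤ eolN I + 1 := h2 _ _ _ _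
      have e2 : fan (padI r I).2 (eolN I + (eolN I + 1) ^ r) j ≤ eolN I + 1 := h2 _ _ _ _
      exact ⟨(Nat.pow_le_pow_left e1 r).trans (Nat.le_add_left _ _),
        (Nat.pow_le_pow_left e2 r).trans (Nat.le_add_left _ _)⟩
  · rintro y ⟨hy, hsol⟩
    rw [hn] at hy
    have hx : (y.take (eolN I)).length = eolN I := by
      rw [List.length_take, hy]; omega
    have hd : (y.drop (eolN I)).length = (eolN I + 1) ^ r := by
      rw [List.length_drop, hy]; omega
    have hy' : y = y.take (eolN I) ++ y.drop (eolN I) := (List.take_append_drop _ _).symm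
    set x := y.take (eolN I) with hxdef
    set d := y.drop (eolN I) with hddef
    refine ⟨hx, ?_⟩
    by_cases hd0 : d = zeros ((eolN I + 1) ^ r)
    · have s1 : (padI r I).1.eval y = I.1.eval x ++ d := by
        rw [hy', eS x d hx hd, if_pos hd0]
      have s2 : (padI r I).2.eval y = I.2.eval x ++ d := by
        rw [hy', eP x d hx hd, if_pos hd0]
      have s3 : (padI r I).2.eval ((padI r I).1.eval y) = I.2.eval (I.1.eval x) ++ d := by
        rw [s1, eP _ d ((padr_len _ _).trans a0) hd, if_pos hd0]
      have s4 : (padI r I).1.eval ((padI r I).2.eval y) = I.1.eval (I.2.eval x) ++ d := by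
        rw [s2, eS _ d ((padr_len _ _).trans a1) hd, if_pos hd0]
      rcases hsol with h | ⟨h, h'⟩
      · left
        intro hcon
        apply h
        rw [s3, hcon]
        exact hy'.symm
      · right
        constructor
        · intro hcon
          apply h
          rw [hn, padr_zeros, hy', hcon, hd0]
        · intro hcon
          apply h'
          rw [s4, hcon]
          exact hy'.symm
    · exfalso
      have s1 : (padI r I).1.eval y = y := by
        conv_lhs => rw [hy']
        rw [eS x d hx hd, if_neg hd0]
        exact hy'.symm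
      have s2 : (padI r I).2.eval y = y := by
        conv_lhs => rw [hy']
        rw [eP x d hx hd, if_neg hd0]
        exact hy'.symm
      rcases hsol with h | ⟨h, h'⟩
      · rw [s1, s2] at h
        exact h rfl
      · rw [s2, s1] at h'
        exact h' rfl

theorem PADR_proof (h1 : S_PADE) (h2 : S_PADF) (h3 : S_PADP) : S_PADR := by
  intro r
  have hg : PTime (fun p : (Circ × Circ) × List Bool => p.2.take (eolN p.1)) :=
    PTime.of_poly poly_back
  refine ⟨padI r, fun p => List.take (eolN p.1) p.2, h3 r, hg, ?_⟩
  intro I hI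
  exact padr_main h1 h2 r I hI

end Pool.Agent.H424R7.FT
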