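import Pool.Agent.H424R7.FT.Stm

/-!
# End-of-Line with few influences: the algorithm runs in polynomial time
-/

set_option autoImplicit false

namespace Pool.Agent.H424R7.FT

open Pool.Agent.NPC Pool.Agent.H424R2.PPAD Pool.Agent.H547R6

section PSOL

variable {α β : Type} [TEnc α] [TEnc β]

theorem psol_fold_length (op : List Bool → ℕ × ℕ → Bool) (gs : List (ℕ × ℕ)) :
    ∀ x : List Bool, (gs.foldl (fun w g => w ++ [op w g]) x).length = x.length + gs.length := by
  induction gs with
  | nil => intro x; simp
  | cons g gs ih => intro x; rw [List.foldl_cons, ih]; simp; omega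

theorem psol_fold {gs : α → List (ℕ × ℕ)} {x : α → List Bool} {op : List Bool → ℕ × ℕ → Bool}
    (hg : Poly gs) (hx : Poly x) (ho : Poly (fun p : List Bool × (ℕ × ℕ) => op p.1 p.2)) :
    Poly (fun a => (gs a).foldl (fun w g => w ++ [op w g]) (x a)) := by
  obtain ⟨r, hr⟩ := hg.sz_le
  obtain ⟨q, hq⟩ := hx.sz_le
  refine Poly.foldl (F := fun _ (w : List Bool) (g : ℕ × ℕ) => w ++ [op w g]) hg hx
    (Poly.append (Poly.fst (Poly.snd Poly.id)) (Poly.cons (ho.comp (Poly.snd Poly.id))
      (NPC.Poly.const [])))
    (Polynomial.C 4 * (r + q) + Polynomial.C 1) ?_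
  intro a k hk
  have h1 := sz_listBool_le (((gs a).take k).foldl (fun w g => w ++ [op w g]) (x a))
  rw [psol_fold_length] at h1
  have h2 : ((gs a).take k).length ≤ (gs a).length := by
    rw [List.length_take]; exact min_le_right _ _
  have h3 := length_lt_sz (gs a)
  have h4 := length_lt_sz (x a)
  have h5 := hr a
  have h6 := hq a
  simp only [Polynomial.eval_add, Polynomial.eval_mul, Polynomial.eval_C]
  omega

theorem psol_owires {gs : α → List (ℕ × ℕ)} {x : α → List Bool} (hg : Poly gs) (hx : Poly x) :
    Poly (fun a => owires (gs a) (x a)) :=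
  psol_fold (op := fun w g => w.getD g.1 false || w.getD g.2 false) hg hx
    (Poly.or (Poly.getD (Poly.fst Poly.id) (Poly.fst (Poly.snd Poly.id)) (NPC.Poly.const false))
      (Poly.getD (Poly.fst Poly.id) (Poly.snd (Poly.snd Poly.id)) (NPC.Poly.const false)))

theorem psol_wires {C : α → Circ} {x : α → List Bool} (hC : Poly C) (hx : Poly x) :
    Poly (fun a => (C a).wires (x a)) :=
  psol_fold (op := fun w g => !(w.getD g.1 false && w.getD g.2 false)) (Poly.fst hC) hx
    (Poly.not (Poly.and
      (Poly.getD (Poly.fst Poly.id) (Poly.fst (Poly.snd Poly.id)) (NPC.Poly.const false))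
      (Poly.getD (Poly.fst Poly.id) (Poly.snd (Poly.snd Poly.id)) (NPC.Poly.const false))))

theorem psol_eval {C : α → Circ} {x : α → List Bool} (hC : Poly C) (hx : Poly x) :
    Poly (fun a => (C a).eval (x a)) :=
  NPC.Poly.map (F := fun a i => ((C a).wires (x a)).getD i false) (Poly.snd hC)
    (Poly.getD ((psol_wires hC hx).comp (Poly.fst Poly.id)) (Poly.snd Poly.id)
      (NPC.Poly.const false))

theorem psol_conn {C : α → Circ} {n j : α → ℕ} (hC : Poly C) (hn : UPoly n) (hj : Poly j) :
    Poly (fun a => conn (C a) (n a) (j a)) :=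
  NPC.Poly.map (F := fun a i => (owires (C a).1 (unitL (n a) (j a))).getD i false) (Poly.snd hC)
    (Poly.getD ((psol_owires (Poly.fst hC) (poly_unitL hn hj)).comp (Poly.fst Poly.id))
      (Poly.snd Poly.id) (NPC.Poly.const false))

theorem psol_basis {n : α → ℕ} {c : α → List Bool} (hn : UPoly n) (hc : Poly c) :
    Poly (fun a => basis (n a) (c a)) := by
  have h1 : Poly (fun a => (List.range (n a)).filter fun i => (c a).getD i false) :=
    Poly.filter (p := fun a i => (c a).getD i false) hn.range
      (Poly.getD (hc.comp (Poly.fst Poly.id)) (Poly.snd Poly.id) (NPC.Poly.const false))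
  exact NPC.Poly.map (F := fun a i => unitL (n a) i) h1
    (poly_unitL (hn.comp (Poly.fst Poly.id)) (Poly.snd Poly.id))

theorem psol_take {l : α → List (List Bool)} {k : α → ℕ} (hl : Poly l) (hk : Poly k) :
    Poly (fun a => (l a).take (k a)) := by
  have h : Poly (fun a => (List.range (min (k a) (l a).length)).map fun i => (l a).getD i []) := by
    have hu : UPoly (fun a => min (k a) (l a).length) :=
      UPoly.of_le (Poly.min hk (Poly.length hl)) (UPoly.length hl) fun _ => min_le_right _ _
    exact NPC.Poly.map (F := fun a i => (l a).getD i []) hu.range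
      (Poly.getD (hl.comp (Poly.fst Poly.id)) (Poly.snd Poly.id) (NPC.Poly.const []))
  refine h.congr fun a => ?_
  apply List.ext_getElem
  · simp
  · intro i h1 h2
    simp only [List.length_map, List.length_range] at h1
    simp only [List.getElem_map, List.getElem_range, List.getElem_take]
    rw [List.getD_eq_getElem _ _ (by omega)]

theorem psol_span_sz (n L : ℕ) (B : List (List Bool)) :
    ∀ T : List (List Bool), T.length ≤ L + 1 → (∀ b ∈ T, b.length = n) →
      (B.foldl (fun T b => (T ++ T.map (xorL n b)).take L) T).length ≤ L + 1 ∧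
      ∀ b ∈ B.foldl (fun T b => (T ++ T.map (xorL n b)).take L) T, b.length = n := by
  induction B with
  | nil => intro T h1 h2; exact ⟨h1, h2⟩
  | cons c B ih =>
    intro T h1 h2
    rw [List.foldl_cons]
    apply ih
    · rw [List.length_take]
      exact (min_le_left _ _).trans (Nat.le_succ _)
    · intro b hb
      have hb' := List.mem_of_mem_take hb
      rw [List.mem_append, List.mem_map] at hb'
      rcases hb' with hb' | ⟨d, _, rfl⟩
      · exact h2 b hb'
      · simp [xorL]

theorem psol_span {n L : α → ℕ} {B : α → List (List Bool)} (hn : UPoly n) (hB : Poly B)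
    (hL : UPoly L) : Poly (fun a => spanT (n a) (B a) (L a)) := by
  obtain ⟨r, hr⟩ := Poly.sz_le (f := fun a => List.replicate (n a) ()) hn
  obtain ⟨q, hq⟩ := Poly.sz_le (f := fun a => List.replicate (L a) ()) hL
  have hz : Poly (fun a => zerosL (n a)) := poly_zerosL hn
  refine Poly.foldl (F := fun a (T : List (List Bool)) (b : List Bool) =>
      (T ++ T.map (xorL (n a) b)).take (L a)) hB (Poly.cons hz (NPC.Poly.const [])) ?_
    ((q + Polynomial.C 1) * (Polynomial.C 4 * r + Polynomial.C 2) + Polynomial.C 1) ?_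
  · refine psol_take ?_ (hL.toPoly.comp (Poly.fst Poly.id))
    refine Poly.append (Poly.fst (Poly.snd Poly.id)) ?_
    refine NPC.Poly.map (F := fun (p : α × List (List Bool) × List Bool) (y : List Bool) =>
      xorL (n p.1) p.2.2 y) (Poly.fst (Poly.snd Poly.id)) ?_
    exact poly_xorL (hn.comp (Poly.fst (Poly.fst Poly.id)))
      (Poly.snd (Poly.snd (Poly.fst Poly.id))) (Poly.snd Poly.id)
  · intro a k hk
    obtain ⟨e1, e2⟩ := psol_span_sz (n a) (L a) ((B a).take k) [zerosL (n a)] (by simp)
      (by intro b hb; simp at hb; rw [hb]; simp [zerosL])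
    have e3 := sz_le_length_mul _ (4 * n a + 1) fun b hb => by
      have := sz_listBool_le b
      have := e2 b hb
      omega
    refine e3.trans ?_
    have e4 := hr a
    have e5 := hq a
    have e6 := length_lt_sz (List.replicate (n a) ())
    have e7 := length_lt_sz (List.replicate (L a) ())
    rw [List.length_replicate] at e6 e7
    simp only [Polynomial.eval_add, Polynomial.eval_mul, Polynomial.eval_C]
    apply Nat.add_le_add_right
    apply Nat.mul_le_mul
    · omega
    · omega

theorem psol_spJ {C : α → Circ} {n L j : α → ℕ} (hC : Poly C) (hn : UPoly n) (hL : UPoly L)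
    (hj : Poly j) : Poly (fun a => spJ (C a) (n a) (L a) (j a)) :=
  psol_span hn (Poly.cons (poly_unitL hn hj) (psol_basis hn (psol_conn hC hn hj)))
    (UPoly.mul (UPoly.const 2) hL)

theorem psol_candJ : Poly (fun p : ((Circ × Circ) × List Bool) × ℕ => candJ p.1.1 p.1.2 p.2) := by
  have hI : Poly (fun p : ((Circ × Circ) × List Bool) × ℕ => p.1.1) := Poly.fst (Poly.fst Poly.id)
  have h1 : Poly (fun p : ((Circ × Circ) × List Bool) × ℕ => p.1.1.1) := Poly.fst hI
  have h2 : Poly (fun p : ((Circ × Circ) × List Bool) × ℕ => p.1.1.2) := Poly.snd hI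
  have hn : UPoly (fun p : ((Circ × Circ) × List Bool) × ℕ => eolN p.1.1) :=
    UPoly.length (Poly.snd h1)
  have hL : UPoly (fun p : ((Circ × Circ) × List Bool) × ℕ => p.1.2.length) :=
    UPoly.length (Poly.snd (Poly.fst Poly.id))
  have hj : Poly (fun p : ((Circ × Circ) × List Bool) × ℕ => p.2) := Poly.snd Poly.id
  have s1 := psol_spJ h1 hn hL hj
  have s2 := psol_spJ h2 hn hL hj
  have m1 : Poly (fun p : ((Circ × Circ) × List Bool) × ℕ =>
      (spJ p.1.1.1 (eolN p.1.1) p.1.2.length p.2).map fun y =>
        xorL (eolN p.1.1) (p.1.1.2.eval y) (unitL (eolN p.1.1) p.2)) :=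
    NPC.Poly.map (F := fun (p : ((Circ × Circ) × List Bool) × ℕ) y =>
        xorL (eolN p.1.1) (p.1.1.2.eval y) (unitL (eolN p.1.1) p.2)) s1
      (poly_xorL (hn.comp (Poly.fst Poly.id))
        (psol_eval (h2.comp (Poly.fst Poly.id)) (Poly.snd Poly.id))
        (poly_unitL (hn.comp (Poly.fst Poly.id)) (hj.comp (Poly.fst Poly.id))))
  have m2 : Poly (fun p : ((Circ × Circ) × List Bool) × ℕ =>
      (spJ p.1.1.2 (eolN p.1.1) p.1.2.length p.2).map fun x =>
        xorL (eolN p.1.1) (p.1.1.1.eval x) (unitL (eolN p.1.1) p.2)) :=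
    NPC.Poly.map (F := fun (p : ((Circ × Circ) × List Bool) × ℕ) x =>
        xorL (eolN p.1.1) (p.1.1.1.eval x) (unitL (eolN p.1.1) p.2)) s2
      (poly_xorL (hn.comp (Poly.fst Poly.id))
        (psol_eval (h1.comp (Poly.fst Poly.id)) (Poly.snd Poly.id))
        (poly_unitL (hn.comp (Poly.fst Poly.id)) (hj.comp (Poly.fst Poly.id))))
  exact Poly.append (Poly.append s1 m1) (Poly.append s2 m2)

theorem psol_candsC : Poly candsC := by
  have hn : UPoly (fun p : (Circ × Circ) × List Bool => eolN p.1) :=
    UPoly.length (Poly.snd (Poly.fst (Poly.fst Poly.id)))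
  exact Poly.flatMap (F := fun (p : (Circ × Circ) × List Bool) j => candJ p.1 p.2 j) hn.range
    psol_candJ

theorem psol_isSolC :
    Poly (fun p : ((Circ × Circ) × List Bool) × List Bool => isSolC p.1.1 p.2) := by
  have v : Poly (fun p : ((Circ × Circ) × List Bool) × List Bool => p.2) := Poly.snd Poly.id
  have S : Poly (fun p : ((Circ × Circ) × List Bool) × List Bool => p.1.1.1) :=
    Poly.fst (Poly.fst (Poly.fst Poly.id))
  have P : Poly (fun p : ((Circ × Circ) × List Bool) × List Bool => p.1.1.2) :=
    Poly.snd (Poly.fst (Poly.fst Poly.id))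
  have n : UPoly (fun p : ((Circ × Circ) × List Bool) × List Bool => eolN p.1.1) :=
    UPoly.length (Poly.snd S)
  have z : Poly (fun p : ((Circ × Circ) × List Bool) × List Bool => zerosL (eolN p.1.1)) :=
    poly_zerosL n
  have h1 : Poly (fun p : ((Circ × Circ) × List Bool) × List Bool =>
      decide (p.2.length = eolN p.1.1)) := Poly.decide_eq (Poly.length v) n.toPoly
  have h2 : Poly (fun p : ((Circ × Circ) × List Bool) × List Bool =>
      decide (p.1.1.2.eval (p.1.1.1.eval p.2) ≠ p.2)) :=
    Poly.decide_not (Poly.decide_eq (psol_eval P (psol_eval S v)) v)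
  have h3 : Poly (fun p : ((Circ × Circ) × List Bool) × List Bool =>
      decide (p.2 ≠ zerosL (eolN p.1.1))) :=
    Poly.decide_not (Poly.decide_eq v z)
  have h4 : Poly (fun p : ((Circ × Circ) × List Bool) × List Bool =>
      decide (p.1.1.1.eval (p.1.1.2.eval p.2) ≠ p.2)) :=
    Poly.decide_not (Poly.decide_eq (psol_eval S (psol_eval P v)) v)
  exact Poly.and h1 (Poly.or h2 (Poly.and h3 h4))

theorem psol_solveF : Poly solveF :=
  poly_headD (Poly.filter (p := fun (p : (Circ × Circ) × List Bool) v => isSolC p.1 v) psol_candsC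
    psol_isSolC)

end PSOL

theorem PSOL_proof : S_PSOL := PTime.of_poly psol_solveF

end Pool.Agent.H424R7.FT
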