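import Pool.Agent.H424R7.FT.Stm

/-!
# End-of-Line with few influences: the restricted problem is solvable in polynomial time
-/

set_option autoImplicit false

namespace Pool.Agent.H424R7.FT

open Pool.Agent.NPC Pool.Agent.H424R2.PPAD Pool.Agent.H547R6

theorem spa_upow (c : ℕ) : UPoly (fun I : Circ × Circ => (eolN I + 1) ^ c) := by
  induction c with
  | zero =>
    have h : UPoly (fun _ : Circ × Circ => 1) := UPoly.const 1
    simpa using h
  | succ c ih =>
    have hn : UPoly (fun I : Circ × Circ => eolN I) := UPoly.length (Poly.snd (Poly.fst Poly.id))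
    have h := UPoly.mul ih (UPoly.add hn (UPoly.const 1))
    simpa only [pow_succ] using h

/-- SPA -/
theorem SPA_proof (h1 : S_ALG) (h2 : S_PSOL) : S_SPA := by
  intro c
  refine ⟨fun I => solveF (I, zerosL ((eolN I + 1) ^ c)), ?_, ?_⟩
  · have h3 : Poly (fun I : Circ × Circ => solveF (I, zerosL ((eolN I + 1) ^ c))) :=
      h2.toPoly.comp (Poly.pair Poly.id (poly_zerosL (spa_upow c)))
    have h4 : PTime (fun I : Circ × Circ => solveF (I, zerosL ((eolN I + 1) ^ c))) :=
      PTime.of_poly h3
    exact h4
  · rintro I ⟨hv, k, hk, hs⟩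
    exact h1 I _ k hv hs (by simpa [zerosL] using hk)

end Pool.Agent.H424R7.FT
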