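import Pool.Agent.H424R7.FT.Stm

set_option autoImplicit false

namespace Pool.Agent.H424R7.FT

open Pool.Agent.NPC Pool.Agent.H424R2.PPAD Pool.Agent.H547R6

theorem spn_getD_xorL (n : ℕ) (x y : List Bool) (i : ℕ) (hi : i < n) :
    (xorL n x y).getD i false = xor (x.getD i false) (y.getD i false) := by
  unfold xorL
  rw [List.getD_eq_getElem _ _ (by simpa using hi)]
  simp

theorem spn_getD_unitL (n b i : ℕ) (hi : i < n) : (unitL n b).getD i false = decide (i = b) := by
  unfold unitL
  rw [List.getD_eq_getElem _ _ (by simpa using hi)]
  simp

theorem spn_len_xorL (n : ℕ) (x y : List Bool) : (xorL n x y).length = n := by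
  simp [xorL]

theorem spn_lt_of_getD {z : List Bool} {i : ℕ} (h : z.getD i false = true) : i < z.length := by
  by_contra hc
  rw [List.getD_eq_default _ _ (by omega)] at h
  exact Bool.noConfusion h

theorem spn_ext {n : ℕ} {x y : List Bool} (hx : x.length = n) (hy : y.length = n)
    (h : ∀ i < n, x.getD i false = y.getD i false) : x = y := by
  apply List.ext_getElem (by rw [hx, hy])
  intro i h1 h2
  have := h i (by omega)
  rwa [List.getD_eq_getElem _ _ h1, List.getD_eq_getElem _ _ h2] at this

theorem spn_invol (n b : ℕ) (z : List Bool) (hz : z.length = n) :
    xorL n (unitL n b) (xorL n (unitL n b) z) = z := by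
  apply spn_ext (spn_len_xorL _ _ _) hz
  intro i hi
  rw [spn_getD_xorL _ _ _ _ hi, spn_getD_xorL _ _ _ _ hi]
  cases (unitL n b).getD i false <;> cases z.getD i false <;> rfl

theorem spn_main (n M : ℕ) (ps : List ℕ) : ∀ (T : List (List Bool)) (S : ℕ → Prop),
    T.length * 2 ^ ps.length ≤ M →
    (∀ z : List Bool, z.length = n → (∀ i, z.getD i false = true → S i) → z ∈ T) →
    ∀ z : List Bool, z.length = n → (∀ i, z.getD i false = true → S i ∨ i ∈ ps) →
      z ∈ (ps.map (unitL n)).foldl (fun T b => (T ++ T.map (xorL n b)).take M) T := by
  induction ps with
  | nil =>
    intro T S _ hT z hz hS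
    refine hT z hz fun i hi => ?_
    rcases hS i hi with h | h
    · exact h
    · exact absurd h List.not_mem_nil
  | cons b ps ih =>
    intro T S hM hT z hz hS
    rw [List.map_cons, List.foldl_cons]
    have h2 : T.length * 2 ^ ps.length * 2 ≤ M := by
      rw [List.length_cons, pow_succ] at hM
      linarith [hM, Nat.mul_assoc T.length (2 ^ ps.length) 2]
    have h1 : 1 ≤ 2 ^ ps.length := Nat.one_le_two_pow
    have hlen : (T ++ T.map (xorL n (unitL n b))).length = T.length * 2 := by
      rw [List.length_append, List.length_map]
      ring
    have hle : T.length * 2 ≤ M := by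
      have : T.length * 1 ≤ T.length * 2 ^ ps.length := Nat.mul_le_mul_left _ h1
      omega
    have htake : (T ++ T.map (xorL n (unitL n b))).take M = T ++ T.map (xorL n (unitL n b)) :=
      List.take_of_length_le (by rw [hlen]; exact hle)
    refine ih ((T ++ T.map (xorL n (unitL n b))).take M) (fun i => S i ∨ i = b) ?_ ?_ z hz ?_
    · rw [htake, hlen]
      calc T.length * 2 * 2 ^ ps.length = T.length * 2 ^ ps.length * 2 := by ring
        _ ≤ M := h2
    · intro y hy hyS
      rw [htake, List.mem_append]
      by_cases hb : y.getD b false = true
      · right
        have hbn : b < n := by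
          have := spn_lt_of_getD hb
          omega
        rw [List.mem_map]
        refine ⟨xorL n (unitL n b) y, ?_, spn_invol n b y hy⟩
        refine hT _ (spn_len_xorL _ _ _) fun i hi => ?_
        have hin : i < n := by
          have := spn_lt_of_getD hi
          rwa [spn_len_xorL] at this
        rw [spn_getD_xorL _ _ _ _ hin, spn_getD_unitL _ _ _ hin] at hi
        by_cases hib : i = b
        · subst hib
          rw [hb] at hi
          simp at hi
        · have hi' : y.getD i false = true := by
            simpa [hib] using hi
          rcases hyS i hi' with h | h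
          · exact h
          · exact absurd h hib
      · left
        refine hT y hy fun i hi => ?_
        rcases hyS i hi with h | h
        · exact h
        · subst h
          exact absurd hi hb
    · intro i hi
      rcases hS i hi with h | h
      · exact Or.inl (Or.inl h)
      · rcases List.mem_cons.1 h with h | h
        · exact Or.inl (Or.inr h)
        · exact Or.inr h

theorem spn_count (n : ℕ) (c : List Bool) (hc : c.length = n) :
    ((List.range n).filter fun i => c.getD i false).length = c.count true := by
  have h1 : c = (List.range n).map fun i => c.getD i false := by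
    apply spn_ext hc (by simp)
    intro i hi
    rw [List.getD_eq_getElem ((List.range n).map _) _ (by simpa using hi)]
    simp
  have h2 : c.count true = (List.range n).countP fun i => c.getD i false := by
    conv_lhs => rw [h1]
    rw [List.count, List.countP_map]
    congr 1
    funext i
    simp
  rw [h2, List.countP_eq_length_filter]

theorem SPN_proof : S_SPN := by
  intro n L j c z hj hc hz hL hS
  have h := spn_main n (2 * L) (j :: (List.range n).filter fun i => c.getD i false) [zerosL n]
    (fun _ => False) ?_ ?_ z hz ?_
  · exact h
  · have e1 : (j :: (List.range n).filter fun i => c.getD i false).length = c.count true + 1 := by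
      rw [List.length_cons, spn_count n c hc]
    rw [e1, List.length_singleton, one_mul, pow_succ]
    omega
  · intro y hy hyF
    have : y = zerosL n := by
      apply spn_ext hy (by simp [zerosL])
      intro i hi
      have h0 : (zerosL n).getD i false = false := by
        unfold zerosL
        rw [List.getD_eq_getElem _ _ (by simpa using hi)]
        simp
      rw [h0]
      cases hyi : y.getD i false
      · rfl
      · exact absurd hyi fun h => hyF i h
    rw [this]
    exact List.mem_singleton.2 rfl
  · intro i hi
    right
    rcases hS i hi with h | h
    · refine List.mem_cons_of_mem _ (List.mem_filter.2 ⟨List.mem_range.2 ?_, h⟩)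
      have := spn_lt_of_getD h
      omega
    · rw [h]
      exact List.mem_cons_self
 
end Pool.Agent.H424R7.FT
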