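import Pool.Agent.H424R7.FT.PADP
import Pool.Agent.H424R7.FT.Asm

/-!
# Fan-outs `(log n)^c`: polynomial-time solvers give subexponential algorithms
-/

set_option autoImplicit false

namespace Pool.Agent.H424R7.FT

open Pool.Agent.NPC Pool.Agent.H424R2.PPAD Pool.Agent.H547R6

/-- In both circuits, each input bit is connected with at most `(log₂ n) ^ (p / q)` outputs. -/
def PolyLog (p q : ℕ) (I : Circ × Circ) : Prop :=
  ∀ j < eolN I, (fan I.1 (eolN I) j) ^ q ≤ (Nat.log 2 (eolN I)) ^ p ∧
    (fan I.2 (eolN I) j) ^ q ≤ (Nat.log 2 (eolN I)) ^ p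

/-- the instance padded by `D` bits -/
def padDI (D : ℕ) (I : Circ × Circ) : Circ × Circ := (padD D (eolN I) I.1, padD D (eolN I) I.2)

theorem sub_n (D : ℕ) (I : Circ × Circ) : eolN (padDI D I) = eolN I + D := by
  simp [eolN, padDI, padD]

theorem sub_valid (h1 : S_PADE) (D : ℕ) (I : Circ × Circ) (hI : EOL.Valid I) :
    EOL.Valid (padDI D I) := by
  obtain ⟨ha, hb, hc⟩ := hI
  have hm : (zeros (eolN I)).length = eolN I := by simp [zeros]
  have hD : (zeros D).length = D := by simp [zeros]
  have hz : zeros (eolN I + D) = zeros (eolN I) ++ zeros D := by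
    simp [zeros]
  have e1 := h1 D I.1 (zeros (eolN I)) (zeros D) hm.symm hD
  have e2 := h1 D I.2 (zeros (eolN I)) (zeros D) (ha.trans hm.symm) hD
  rw [if_pos rfl, hm] at e1 e2
  refine ⟨?_, ?_, ?_⟩
  · change (padD D (eolN I) I.2).2.length = eolN (padDI D I)
    rw [sub_n]
    simp [padD]
  · change (padD D (eolN I) I.2).eval (zeros (eolN (padDI D I))) = zeros (eolN (padDI D I))
    rw [sub_n, hz, e2, hb]
  · change (padD D (eolN I) I.1).eval (zeros (eolN (padDI D I))) ≠ zeros (eolN (padDI D I))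
    rw [sub_n, hz, e1]
    intro h
    exact hc (List.append_cancel_right h)

theorem sub_sol (h1 : S_PADE) (D : ℕ) (I : Circ × Circ) (hI : EOL.Valid I) (v : List Bool)
    (hv : EOL.IsSol (padDI D I) v) : EOL.IsSol I (v.take (eolN I)) := by
  obtain ⟨hl, hs⟩ := hv
  rw [sub_n] at hl
  obtain ⟨ha, hb, hc⟩ := hI
  have hx : (v.take (eolN I)).length = eolN I := by simp [hl]
  have hd : (v.drop (eolN I)).length = D := by simp [hl]
  have hv : v = v.take (eolN I) ++ v.drop (eolN I) := (List.take_append_drop _ v).symm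
  generalize v.take (eolN I) = x at hx hv ⊢
  generalize v.drop (eolN I) = d at hd hv
  have l1 : ∀ y : List Bool, (I.1.eval y).length = eolN I := fun y => by simp [Circ.eval, eolN]
  have l2 : ∀ y : List Bool, (I.2.eval y).length = eolN I := fun y => by
    simp only [Circ.eval, List.length_map]; exact ha
  have E1 : ∀ y : List Bool, y.length = eolN I → (padD D (eolN I) I.1).eval (y ++ d) =
      if d = zeros D then I.1.eval y ++ d else y ++ d := by
    intro y hy
    have := h1 D I.1 y d hy.symm hd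
    rwa [hy] at this
  have E2 : ∀ y : List Bool, y.length = eolN I → (padD D (eolN I) I.2).eval (y ++ d) =
      if d = zeros D then I.2.eval y ++ d else y ++ d := by
    intro y hy
    have := h1 D I.2 y d (ha.trans hy.symm) hd
    rwa [hy] at this
  change (padD D (eolN I) I.2).eval ((padD D (eolN I) I.1).eval v) ≠ v ∨
    (v ≠ zeros (eolN (padDI D I)) ∧
      (padD D (eolN I) I.1).eval ((padD D (eolN I) I.2).eval v) ≠ v) at hs
  rw [sub_n] at hs
  subst hv
  by_cases h0 : d = zeros D
  · simp only [E1 x hx, E2 x hx, if_pos h0] at hs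
    rw [E1 _ (l2 x), E2 _ (l1 x), if_pos h0, if_pos h0] at hs
    refine ⟨hx, ?_⟩
    rcases hs with hs | ⟨hs0, hs⟩
    · exact Or.inl fun h => hs (by rw [h])
    · refine Or.inr ⟨fun h => hs0 ?_, fun h => hs (by rw [h])⟩
      rw [h, h0]
      simp [zeros]
  · exfalso
    simp only [E1 x hx, E2 x hx, if_neg h0] at hs
    rcases hs with hs | ⟨_, hs⟩ <;> exact hs rfl

/-- **Subexponential algorithms.**  If End-of-Line restricted to fan-outs at most
`(log₂ n)^(p/q)` is solvable in polynomial time, then End-of-Line with `m` bits is solvable in time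
polynomial in the input length and `2^a`, for each `a` with `a ≥ (m + 1)^(q/p)`. -/
theorem SUB_proof (h1 : S_PADE) (h2 : S_PADF) (p q : ℕ) (h : Solvable (EOLr (PolyLog p q))) :
    ∃ f : (Circ × Circ) × List Bool → List Bool, PTime f ∧
      ∀ (I : Circ × Circ) (w : List Bool) (a : ℕ), EOL.Valid I → 2 ^ a ≤ w.length →
        (eolN I + 1) ^ q ≤ a ^ p → EOL.IsSol I (f (I, w)) := by
  have h' : ∃ s : Circ × Circ → List Bool, PTime s ∧
      ∀ I, (EOL.Valid I ∧ PolyLog p q I) → EOL.IsSol I (s I) := h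
  obtain ⟨s, hs, hcor⟩ := h'
  have hs' : Poly s := hs.toPoly
  have hN : UPoly (fun p : (Circ × Circ) × List Bool => eolN p.1) :=
    UPoly.length (Poly.snd (Poly.fst (Poly.fst Poly.id)))
  have hW : UPoly (fun p : (Circ × Circ) × List Bool => p.2.length) :=
    UPoly.length (Poly.snd Poly.id)
  have hpad : Poly (fun p : (Circ × Circ) × List Bool => padDI p.2.length p.1) :=
    Poly.pair (padp_main hW hN (Poly.fst (Poly.fst Poly.id)))
      (padp_main hW hN (Poly.snd (Poly.fst Poly.id)))
  have hf : Poly (fun p : (Circ × Circ) × List Bool => s (padDI p.2.length p.1)) :=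
    NPC.Poly.comp hs' hpad
  have hb : Poly (fun p : (Circ × Circ) × List Bool => p.2.take (eolN p.1)) := poly_back
  refine ⟨fun p => (s (padDI p.2.length p.1)).take (eolN p.1),
    PTime.of_poly (NPC.Poly.comp hb (Poly.pair (Poly.fst Poly.id) hf)), ?_⟩
  intro I w a hI hw ha
  apply sub_sol h1 w.length I hI
  refine hcor (padDI w.length I) ⟨sub_valid h1 _ I hI, ?_⟩
  intro j hj
  rw [sub_n]
  have hlog : a ≤ Nat.log 2 (eolN I + w.length) :=
    (Nat.le_log_iff_pow_le (by norm_num) (by
      have : 0 < 2 ^ a := by positivity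
      omega)).mpr (by omega)
  have hpow : (eolN I + 1) ^ q ≤ (Nat.log 2 (eolN I + w.length)) ^ p :=
    ha.trans (Nat.pow_le_pow_left hlog p)
  exact ⟨(Nat.pow_le_pow_left (h2 w.length (eolN I) I.1 j) q).trans hpow,
    (Nat.pow_le_pow_left (h2 w.length (eolN I) I.2 j) q).trans hpow⟩

end Pool.Agent.H424R7.FT
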