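import Pool.Agent.H424R7.FT.Defs

/-!
# End-of-Line with few influences: statements of the steps
-/

set_option autoImplicit false

namespace Pool.Agent.H424R7.FT

open Pool.Agent.NPC Pool.Agent.H424R2.PPAD Pool.Agent.H547R6

/-- GA: the parity argument, for `S`. -/
def S_GA : Prop :=
  ∀ (X : Type) [Fintype X] [DecidableEq X] (o : X) (S P τ : X → X) (C : Finset X),
    P o = o → S o ≠ o → (∀ x, τ (τ x) = x) → (∀ x, τ x ≠ x) → o ∈ C → Even C.card →
    (∀ x, S x ∈ C → S (τ x) ∈ C) → ∃ v, Sol o S P v ∧ (v ∈ C ∨ ∃ y ∈ C, v = τ (P y))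

/-- GB: the parity argument, for `P`. -/
def S_GB : Prop :=
  ∀ (X : Type) [Fintype X] [DecidableEq X] (o : X) (S P τ : X → X) (C : Finset X),
    P o = o → S o ≠ o → (∀ x, τ (τ x) = x) → (∀ x, τ x ≠ x) → o ∈ C → Even C.card →
    (∀ y, P y ∈ C → P (τ y) ∈ C) → ∃ v, Sol o S P v ∧ (v ∈ C ∨ v = τ o ∨ ∃ x ∈ C, v = τ (S x))

/-- VEC: derivatives in a subspace. -/
def S_VEC : Prop :=
  ∀ (n : ℕ) (S P : (Fin n → ZMod 2) → (Fin n → ZMod 2)), P 0 = 0 → S 0 ≠ 0 →
    ∀ t : Fin n → ZMod 2, t ≠ 0 → ∀ V : Submodule (ZMod 2) (Fin n → ZMod 2),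
    ((∀ x, S (x + t) - S x ∈ V) → ∃ v, Sol 0 S P v ∧ (v ∈ V ∨ ∃ y ∈ V, v = P y + t)) ∧
    (V ≠ ⊥ → (∀ y, P (y + t) - P y ∈ V) →
      ∃ v, Sol 0 S P v ∧ (v ∈ V ∨ v = t ∨ ∃ x ∈ V, v = S x + t))

/-- LOC: one local circuit, the other one arbitrary. `A i` is a set of inputs that determine the
output `i`. -/
def S_LOC : Prop :=
  ∀ (n k : ℕ) (S P : (Fin n → Bool) → (Fin n → Bool)), P (zeroF n) = zeroF n →
    S (zeroF n) ≠ zeroF n → ∀ A : Fin n → Finset (Fin n), ∑ i, (A i).card ≤ k * n →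
    ((∀ i x y, (∀ j ∈ A i, x j = y j) → S x i = S y i) →
      ∃ (j : Fin n) (U : Finset (Fin n)), U.card ≤ k + 1 ∧ ∃ v, Sol (zeroF n) S P v ∧
        ((∀ i, v i = true → i ∈ U) ∨
          ∃ y, (∀ i, y i = true → i ∈ U) ∧ v = flipF (P y) j)) ∧
    ((∀ i x y, (∀ j ∈ A i, x j = y j) → P x i = P y i) →
      ∃ (j : Fin n) (U : Finset (Fin n)), U.card ≤ k + 1 ∧ ∃ v, Sol (zeroF n) S P v ∧
        ((∀ i, v i = true → i ∈ U) ∨
          ∃ x, (∀ i, x i = true → i ∈ U) ∧ v = flipF (S x) j))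

/-- WT1: both circuits local. -/
def S_WT1 : Prop :=
  ∀ (n a b : ℕ) (S P : (Fin n → Bool) → (Fin n → Bool)), P (zeroF n) = zeroF n →
    S (zeroF n) ≠ zeroF n → a * b + 1 < n → ∀ A B : Fin n → Finset (Fin n),
    (∀ i, (A i).card ≤ a) → (∀ i, (B i).card ≤ b) →
    (∀ i x y, (∀ j ∈ A i, x j = y j) → S x i = S y i) →
    (∀ i x y, (∀ j ∈ B i, x j = y j) → P x i = P y i) →
    ∃ j, S (P (unitF j)) ≠ unitF j

/-- OSEM: outputs which are not connected with an input do not depend on it. -/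
def S_OSEM : Prop :=
  ∀ (C : Circ) (n j i : ℕ) (x : List Bool), x.length = n → (conn C n j).getD i false = false →
    (C.eval x).getD i false = (C.eval (xorL n x (unitL n j))).getD i false

/-- SPN: the enumeration of a coordinate subspace. -/
def S_SPN : Prop :=
  ∀ (n L j : ℕ) (c z : List Bool), j < n → c.length = n → z.length = n →
    2 ^ (c.count true) ≤ L → (∀ i, z.getD i false = true → c.getD i false = true ∨ i = j) →
    z ∈ spanT n (unitL n j :: basis n c) (2 * L)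

/-- CAN: the candidates contain a solution. -/
def S_CAN : Prop :=
  ∀ (I : Circ × Circ) (w : List Bool) (j : ℕ), EOL.Valid I → j < eolN I →
    (2 ^ fan I.1 (eolN I) j ≤ w.length ∨ 2 ^ fan I.2 (eolN I) j ≤ w.length) →
    ∃ v ∈ candJ I w j, EOL.IsSol I v

/-- PSOL: the algorithm runs in polynomial time. -/
def S_PSOL : Prop := PTime solveF

/-- ALG: the algorithm is correct. -/
def S_ALG : Prop :=
  ∀ (I : Circ × Circ) (w : List Bool) (k : ℕ), EOL.Valid I → Small k I → 2 ^ k ≤ w.length →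
    EOL.IsSol I (solveF (I, w))

/-- SPA: the restricted problem is solvable in polynomial time. -/
def S_SPA : Prop := ∀ c : ℕ, Solvable (EOLr (Sparse c))

/-- IND: locality bounds the number of connected pairs. -/
def S_IND : Prop :=
  ∀ (C : Circ) (n k : ℕ), (∀ i < C.2.length, inn C n i ≤ k) → pairs C n ≤ k * C.2.length

/-- PADE: the function computed by the padded circuit. -/
def S_PADE : Prop :=
  ∀ (D : ℕ) (C : Circ) (x d : List Bool), C.2.length = x.length → d.length = D →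
    (padD D x.length C).eval (x ++ d) = if d = zeros D then C.eval x ++ d else x ++ d

/-- PADF: the fan-outs of the padded circuit. -/
def S_PADF : Prop :=
  ∀ (D m : ℕ) (C : Circ) (j : ℕ), fan (padD D m C) (m + D) j ≤ m + 1

/-- PADP: the padded instance is computed in polynomial time. -/
def S_PADP : Prop := ∀ r : ℕ, PTime (padI r)

/-- PADR: the reduction. -/
def S_PADR : Prop := ∀ r : ℕ, EOL.Reduces (EOLr (Thin r))

end Pool.Agent.H424R7.FT
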