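import Pool.Agent.H424R7.FT.Stm

set_option autoImplicit false

namespace Pool.Agent.H424R7.FT

/-- a finite set with a fixed point free involution has even cardinality -/
private lemma vec_even {X : Type} [DecidableEq X] (C : Finset X) (σ : X → X)
    (h1 : ∀ x ∈ C, σ x ∈ C) (h2 : ∀ x ∈ C, σ x ≠ x) (h3 : ∀ x ∈ C, σ (σ x) = x) :
    Even C.card := by
  have h : ∑ x ∈ C, (1 : ZMod 2) = 0 :=
    Finset.sum_involution (fun x _ => σ x) (fun x _ => by decide) (fun x hx _ => h2 x hx)
      (fun x hx => h1 x hx) (fun x hx => h3 x hx)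
  rw [Finset.sum_const, nsmul_eq_mul, mul_one] at h
  exact (ZMod.natCast_eq_zero_iff_even).1 h

private lemma vec_add {n : ℕ} (x t : Fin n → ZMod 2) : x + t + t = x := by
  funext i
  rw [Pi.add_apply, Pi.add_apply, add_assoc, CharTwo.add_self_eq_zero, add_zero]

theorem VEC_proof (h1 : S_GA) (h2 : S_GB) : S_VEC := by
  classical
  intro n S P hP hS t ht V
  set C : Finset (Fin n → ZMod 2) := Finset.univ.filter fun x => x ∈ V with hC
  have hmem : ∀ x, x ∈ C ↔ x ∈ V := fun x => by simp [hC]
  have hτ : ∀ x : Fin n → ZMod 2, x + t ≠ x := by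
    intro x hx
    exact ht (by simpa using hx)
  have h0 : (0 : Fin n → ZMod 2) ∈ C := (hmem 0).2 V.zero_mem
  have heven : V ≠ ⊥ → Even C.card := by
    intro hV
    obtain ⟨b, hb, hb0⟩ := Submodule.exists_mem_ne_zero_of_ne_bot hV
    refine vec_even C (fun x => x + b) ?_ ?_ ?_
    · intro x hx
      exact (hmem _).2 (V.add_mem ((hmem x).1 hx) hb)
    · intro x _ hx
      exact hb0 (by simpa using hx)
    · intro x _
      exact vec_add x b
  constructor
  · intro hS'
    by_cases hV : V = ⊥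
    · have h3 : S t = S 0 := by
        have h4 := hS' 0
        rw [hV, Submodule.mem_bot, zero_add, sub_eq_zero] at h4
        exact h4
      by_cases h5 : P (S 0) = 0
      · refine ⟨t, Or.inl ?_, Or.inr ⟨0, V.zero_mem, by rw [hP, zero_add]⟩⟩
        rw [h3, h5]
        exact ht.symm
      · exact ⟨0, Or.inl h5, Or.inl V.zero_mem⟩
    · obtain ⟨v, hv, hv'⟩ := h1 (Fin n → ZMod 2) 0 S P (fun x => x + t) C hP hS
        (fun x => vec_add x t) hτ h0 (heven hV) (fun x hx => by
          rw [hmem] at hx ⊢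
          have := V.add_mem (hS' x) hx
          rwa [sub_add_cancel] at this)
      refine ⟨v, hv, ?_⟩
      rcases hv' with h | ⟨y, hy, h⟩
      · exact Or.inl ((hmem v).1 h)
      · exact Or.inr ⟨y, (hmem y).1 hy, h⟩
  · intro hV hP'
    obtain ⟨v, hv, hv'⟩ := h2 (Fin n → ZMod 2) 0 S P (fun x => x + t) C hP hS
        (fun x => vec_add x t) hτ h0 (heven hV) (fun x hx => by
          rw [hmem] at hx ⊢
          have := V.add_mem (hP' x) hx
          rwa [sub_add_cancel] at this)
    refine ⟨v, hv, ?_⟩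
    rcases hv' with h | h | ⟨y, hy, h⟩
    · exact Or.inl ((hmem v).1 h)
    · exact Or.inr (Or.inl (by rw [h, zero_add]))
    · exact Or.inr (Or.inr ⟨y, (hmem y).1 hy, h⟩)

end Pool.Agent.H424R7.FT
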