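import Pool.Agent.H424R7.FT.Stm

set_option autoImplicit false

namespace Pool.Agent.H424R7.FT

open Pool.Agent.NPC Pool.Agent.H424R2.PPAD Pool.Agent.H547R6

theorem WT1_proof : S_WT1 := by
  intro n a b S P hP hS hn A B hA hB hSA hPB
  have hi : ∃ i, S (zeroF n) i = true := by
    by_contra hcon
    push Not at hcon
    apply hS
    funext i
    have := hcon i
    simpa [zeroF] using this
  obtain ⟨i, hi⟩ := hi
  have hcard : (insert i ((A i).biUnion B)).card < n := by
    have h1 : ((A i).biUnion B).card ≤ a * b := by
      refine le_trans Finset.card_biUnion_le ?_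
      refine le_trans (Finset.sum_le_card_nsmul _ _ b (fun l _ => hB l)) ?_
      rw [smul_eq_mul]
      exact Nat.mul_le_mul_right b (hA i)
    have h2 := Finset.card_insert_le i ((A i).biUnion B)
    omega
  have hj : ∃ j : Fin n, j ∉ insert i ((A i).biUnion B) := by
    by_contra hcon
    push Not at hcon
    have hu : insert i ((A i).biUnion B) = Finset.univ := by
      apply Finset.eq_univ_of_forall
      exact hcon
    rw [hu, Finset.card_univ, Fintype.card_fin] at hcard
    exact lt_irrefl _ hcard
  obtain ⟨j, hj⟩ := hj
  rw [Finset.mem_insert, Finset.mem_biUnion] at hj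
  push Not at hj
  refine ⟨j, fun heq => ?_⟩
  have h3 : S (P (unitF j)) i = S (zeroF n) i := by
    apply hSA
    intro l hl
    have h4 : P (unitF j) l = P (zeroF n) l := by
      apply hPB
      intro m hm
      have h5 : m ≠ j := fun h => hj.2 l hl (h ▸ hm)
      simp [unitF, zeroF, h5]
    rw [h4, hP]
  have h6 : unitF j i = false := by
    simp only [unitF, decide_eq_false_iff_not]
    exact fun h => hj.1 h.symm
  rw [heq, hi, h6] at h3
  exact absurd h3 (by decide)

end Pool.Agent.H424R7.FT
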